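import Mathlib
import Pool.Agent.W41.Core2

/-! Comparison of a function invariant under the `3x+d` map, `d` any odd number, along sifted
progressions, with its mean over a class modulo `d`. -/

set_option autoImplicit false

namespace Pool.Agent.Helper82K9.GK

open Finset Pool.Agent.H499R2.CO Pool.Agent.W41

/-- one shift by a multiple of `d` -/
theorem shift_errD : ∃ K y0 : ℕ, 1 ≤ K ∧ 2 ≤ y0 ∧ ∀ y : ℕ, y0 ≤ y → ∀ k T : ℕ, 2 ^ k * y ^ K ≤ T →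
    ∀ P : Finset ℕ, (∀ p ∈ P, p.Prime ∧ p ≤ y) → ∀ A B : ℤ, (∀ p ∈ P, ¬ (p : ℤ) ∣ B) →
    ∀ d : ℤ, d % 2 = 1 → ∀ x0 R : ℤ, R % 2 = 1 →
    ∀ f : ℤ → ℝ, (∀ x, 0 ≤ f x) → (∀ x, f x ≤ 1) → (∀ x, f (Tz d x) = f x) → ∀ h : ℤ,
    |∑ t ∈ Icc 1 T, wt P A B (t : ℕ) * f (x0 + R * (t : ℕ)) -
      ∑ t ∈ Icc 1 T, wt P A B (t : ℕ) * f (x0 + R * (t : ℕ) - d * h)| ≤
      8 * T * V P * q step (0, 0) k (0, -h) := by
  classical
  obtain ⟨K, y0, hK, hy0, H⟩ := surv_sum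
  refine ⟨K, y0, hK, hy0, fun y hy k T hT P hP A B hB d hd x0 R hR f hf0 hf1 hf h => ?_⟩
  refine le_trans ?_ (H y hy k T hT P hP A B hB d hd x0 R hR (0, -h))
  rw [← sum_sub_distrib]
  refine (abs_sum_le_sum_abs _ _).trans (sum_le_sum fun t _ => ?_)
  rw [← mul_sub, abs_mul, abs_of_nonneg (wt_nonneg _ _ _ _)]
  apply mul_le_mul_of_nonneg_left _ (wt_nonneg _ _ _ _)
  split_ifs with hs
  · rw [abs_le]
    have a1 := hf0 (x0 + R * (t : ℕ)); have a2 := hf1 (x0 + R * (t : ℕ))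
    have a3 := hf0 (x0 + R * (t : ℕ) - d * h); have a4 := hf1 (x0 + R * (t : ℕ) - d * h)
    constructor <;> linarith
  · obtain ⟨j, -, hj⟩ := coal hd k 0 (-h) _ hs
    have hit : ∀ (j : ℕ) (x : ℤ), f ((Tz d)^[j] x) = f x := by
      intro j
      induction j with
      | zero => intro x; rfl
      | succ j ih => intro x; rw [Function.iterate_succ_apply, ih, hf]
    have e : (3 : ℤ) ^ 0 * (x0 + R * (t : ℕ)) + d * (-h) = x0 + R * (t : ℕ) - d * h := by ring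
    rw [e] at hj
    have := congrArg f hj
    rw [hit, hit] at this
    rw [this, sub_self, abs_zero]

/-- THE COMPARISON for a general odd constant `d = σ D`. -/
theorem coreD {ε : ℝ} (hε : 0 < ε) (hε1 : ε ≤ 1) : ∃ (K y0 k0 : ℕ) (θ : ℝ), 1 ≤ K ∧ 2 ≤ y0 ∧ 0 < θ ∧
    ∀ y : ℕ, y0 ≤ y → ∀ k : ℕ, k0 ≤ k → ∀ T : ℕ, 2 ^ k * y ^ K ≤ T →
    ∀ P : Finset ℕ, (∀ p ∈ P, p.Prime ∧ p ≤ y) → ∀ A B : ℤ, (∀ p ∈ P, ¬ (p : ℤ) ∣ B) →
    ∀ D : ℕ, D % 2 = 1 → ∀ d σ : ℤ, d = σ * D → (σ = 1 ∨ σ = -1) → ∀ x0 : ℤ, ∀ R : ℕ, R % 2 = 1 →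
    ∀ h0 : ℕ, y ^ K ≤ h0 → (R * h0 : ℝ) ≤ (2 : ℝ) ^ (θ * k) →
    ∀ f : ℤ → ℝ, (∀ x, 0 ≤ f x) → (∀ x, f x ≤ 1) → (∀ x, f (Tz d x) = f x) →
    |∑ t ∈ Icc 1 T, wt P A B (t : ℕ) * f (x0 + D * (R * (t : ℕ))) -
      V P / R * ∑ m ∈ Ioc (0 : ℤ) (R * T), f (x0 + D * m)| ≤ ε * (T * V P) + h0 := by
  obtain ⟨K1, y1, hK1, hy1, H1⟩ := shift_errD
  obtain ⟨K2, y2, hK2, hy2, H2⟩ := window (show 0 < ε / 2 by positivity)
  obtain ⟨θ, hθ, k0, hq⟩ := q_quant (show 0 < ε / 16 by positivity) (by linarith)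
  refine ⟨max K1 K2, max y1 y2, k0, θ, le_trans hK1 (le_max_left _ _), le_trans hy1 (le_max_left _ _), hθ, ?_⟩
  intro y hy k hk T hT P hP A B hB D hD d σ hdσ hσ x0 R hR h0 hh0 hRh f hf0 hf1 hf
  have hd : d % 2 = 1 := by
    have h1 : ((D : ℕ) : ℤ) % 2 = 1 := by omega
    rcases hσ with rfl | rfl <;> omega
  have hσσ : σ * σ = 1 := by rcases hσ with rfl | rfl <;> norm_num
  have hy1' : y1 ≤ y := le_trans (le_max_left _ _) hy
  have hy2' : y2 ≤ y := le_trans (le_max_right _ _) hy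
  have hyp : 1 ≤ y := by omega
  have hT1 : 2 ^ k * y ^ K1 ≤ T := le_trans (Nat.mul_le_mul_left _ (Nat.pow_le_pow_right hyp (le_max_left _ _))) hT
  have hh2 : y ^ K2 ≤ h0 := le_trans (Nat.pow_le_pow_right hyp (le_max_right _ _)) hh0
  have hPp : ∀ p ∈ P, p.Prime := fun p hp => (hP p hp).1
  have hV0 := V_pos hPp
  have hR0 : 0 < R := by omega
  have hRR : (0 : ℝ) < R := by exact_mod_cast hR0
  have hh00 : 0 < h0 := lt_of_lt_of_le (Nat.pos_of_ne_zero (pow_ne_zero _ (by omega))) hh2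
  have hhR : (0 : ℝ) < h0 := by exact_mod_cast hh00
  have hT0 : (0 : ℝ) ≤ T := Nat.cast_nonneg _
  have hRodd : ((D : ℤ) * R) % 2 = 1 := by
    have h1 : ((D : ℕ) : ℤ) % 2 = 1 := by omega
    have h2 : ((R : ℕ) : ℤ) % 2 = 1 := by omega
    rw [Int.mul_emod, h1, h2]; norm_num
  have hassoc : ∀ t : ℤ, x0 + (D : ℤ) * (R * t) = x0 + (D * R) * t := fun t => by ring
  simp only [hassoc]
  set S : ℝ := ∑ t ∈ Icc 1 T, wt P A B (t : ℕ) * f (x0 + (D * R) * (t : ℕ)) with hS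
  -- each shift
  have s1 : ∀ g ∈ range h0, ∀ r ∈ range R,
      |S - ∑ t ∈ Icc 1 T, wt P A B ((t : ℕ) + (g : ℕ)) * f (x0 + D * (0 + R * (t : ℕ) - r))| ≤ ε / 2 * (T * V P) + h0 := by
    intro g hg r hr
    rw [mem_range] at hg hr
    have a1 := H1 y hy1' k T hT1 P hP A B hB d hd x0 (D * R) hRodd f hf0 hf1 hf (σ * (R * g + r))
    have a2 : q step (0, 0) k (0, -(σ * ((R : ℤ) * g + r))) ≤ ε / 16 := by
      apply hq k hk
      have e1 : |((-(σ * ((R : ℤ) * g + r)) : ℤ) : ℝ)| = R * g + r := by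
        have hd1 : |(σ : ℝ)| = 1 := by
          rcases hσ with rfl | rfl <;> norm_num
        push_cast
        rw [abs_neg, abs_mul, hd1, one_mul, abs_of_nonneg (by positivity)]
      rw [e1]
      refine le_trans ?_ hRh
      have h3 : (g : ℝ) + 1 ≤ h0 := by exact_mod_cast hg
      have h4 : (r : ℝ) ≤ R := by exact_mod_cast hr.le
      nlinarith
    have a3 : 8 * T * V P * q step (0, 0) k (0, -(σ * ((R : ℤ) * g + r))) ≤ ε / 2 * (T * V P) := by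
      have : 0 ≤ 8 * T * V P := by positivity
      calc _ ≤ 8 * T * V P * (ε / 16) := mul_le_mul_of_nonneg_left a2 this
        _ = _ := by ring
    have a4 := trans_err (fun t => wt P A B t * f (x0 + (D * R) * t - D * (R * g + r)))
      (fun t => mul_nonneg (wt_nonneg _ _ _ _) (hf0 _))
      (fun t => mul_le_one₀ (wt_le_one _ _ _ _) (hf0 _) (hf1 _)) T g
    have a5 : ∑ t ∈ Icc 1 T, wt P A B ((t : ℕ) + (g : ℕ)) *
          f (x0 + (D * R) * ((t : ℕ) + (g : ℕ)) - D * (R * g + r)) =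
        ∑ t ∈ Icc 1 T, wt P A B ((t : ℕ) + (g : ℕ)) * f (x0 + D * (0 + R * (t : ℕ) - r)) := by
      apply sum_congr rfl
      intro t _
      congr 2
      ring
    rw [a5] at a4
    have e6 : d * (σ * ((R : ℤ) * g + r)) = D * (R * g + r) := by
      rw [hdσ]
      linear_combination (D : ℤ) * (R * g + r) * hσσ
    rw [e6] at a1
    have a6 : (g : ℝ) ≤ h0 := by exact_mod_cast hg.le
    have := abs_sub_le S (∑ t ∈ Icc 1 T, wt P A B (t : ℕ) * f (x0 + (D * R) * (t : ℕ) - D * (R * g + r)))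
      (∑ t ∈ Icc 1 T, wt P A B ((t : ℕ) + (g : ℕ)) * f (x0 + D * (0 + R * (t : ℕ) - r)))
    linarith
  -- the mean over the shifts
  have s2 : |S * (h0 * R) - ∑ g ∈ range h0, ∑ r ∈ range R,
      ∑ t ∈ Icc 1 T, wt P A B ((t : ℕ) + (g : ℕ)) * f (x0 + D * (0 + R * (t : ℕ) - r))| ≤
      (ε / 2 * (T * V P) + h0) * (h0 * R) := by
    have e : S * (h0 * R) = ∑ g ∈ range h0, ∑ r ∈ range R, S := by
      simp only [sum_const, card_range, nsmul_eq_mul]; ring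
    rw [e, ← sum_sub_distrib]
    refine (abs_sum_le_sum_abs _ _).trans ?_
    calc _ ≤ ∑ g ∈ range h0, ∑ r ∈ range R, (ε / 2 * (T * V P) + h0) := by
          apply sum_le_sum
          intro g hg
          rw [← sum_sub_distrib]
          exact (abs_sum_le_sum_abs _ _).trans (sum_le_sum fun r hr => s1 g hg r hr)
      _ = _ := by simp only [sum_const, card_range, nsmul_eq_mul]; ring
  -- swap
  have s3 : ∑ g ∈ range h0, ∑ r ∈ range R,
      ∑ t ∈ Icc 1 T, wt P A B ((t : ℕ) + (g : ℕ)) * f (x0 + D * (0 + R * (t : ℕ) - r)) =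
      ∑ t ∈ Icc 1 T, (∑ g ∈ range h0, wt P A B ((t : ℕ) + (g : ℕ))) *
        ∑ r ∈ range R, f (x0 + D * (0 + R * (t : ℕ) - r)) := by
    have e : ∀ g ∈ range h0, ∑ r ∈ range R,
      ∑ t ∈ Icc 1 T, wt P A B ((t : ℕ) + (g : ℕ)) * f (x0 + D * (0 + R * (t : ℕ) - r)) =
      ∑ t ∈ Icc 1 T, wt P A B ((t : ℕ) + (g : ℕ)) * ∑ r ∈ range R, f (x0 + D * (0 + R * (t : ℕ) - r)) := by
      intro g _
      rw [sum_comm]
      exact sum_congr rfl fun t _ => (mul_sum _ _ _).symm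
    rw [sum_congr rfl e, sum_comm]
    exact sum_congr rfl fun t _ => (sum_mul _ _ _).symm
  have htile := tile (fun m => f (x0 + D * m)) 0 R T
  simp only [zero_add] at htile
  have s4 : |∑ t ∈ Icc 1 T, (∑ g ∈ range h0, wt P A B ((t : ℕ) + (g : ℕ))) *
        ∑ r ∈ range R, f (x0 + D * (0 + R * (t : ℕ) - r)) -
      (h0 * V P) * ∑ m ∈ Ioc (0 : ℤ) (R * T), f (x0 + D * m)| ≤ T * (ε / 2 * (h0 * V P) * R) := by
    simp only [zero_add]
    rw [← htile, mul_sum, ← sum_sub_distrib]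
    refine (abs_sum_le_sum_abs _ _).trans ?_
    calc _ ≤ ∑ t ∈ Icc 1 T, (ε / 2 * (h0 * V P) * R) := by
          apply sum_le_sum
          intro t _
          rw [← sub_mul, abs_mul]
          have b1 := H2 y hy2' h0 hh2 P hP A B hB t
          have b2 : |∑ r ∈ range R, f (x0 + D * (R * (t : ℕ) - r))| ≤ R := by
            rw [abs_of_nonneg (sum_nonneg fun _ _ => hf0 _)]
            calc _ ≤ ∑ r ∈ range R, (1 : ℝ) := sum_le_sum fun _ _ => hf1 _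
              _ = R := by simp
          exact mul_le_mul b1 b2 (abs_nonneg _) (by positivity)
      _ = _ := by rw [sum_const, nsmul_eq_mul, Nat.card_Icc, Nat.add_sub_cancel]
  rw [s3] at s2
  have s5 : |S * (h0 * R) - (h0 * V P) * ∑ m ∈ Ioc (0 : ℤ) (R * T), f (x0 + D * m)| ≤
      (ε * (T * V P) + h0) * (h0 * R) := by
    have := abs_sub_le (S * (h0 * R)) (∑ t ∈ Icc 1 T, (∑ g ∈ range h0, wt P A B ((t : ℕ) + (g : ℕ))) *
      ∑ r ∈ range R, f (x0 + D * (0 + R * (t : ℕ) - r))) ((h0 * V P) * ∑ m ∈ Ioc (0 : ℤ) (R * T), f (x0 + D * m))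
    calc _ ≤ _ := this
      _ ≤ (ε / 2 * (T * V P) + h0) * (h0 * R) + T * (ε / 2 * (h0 * V P) * R) := add_le_add s2 s4
      _ = _ := by ring
  have hM : (0 : ℝ) < h0 * R := by positivity
  have e : S - V P / R * ∑ m ∈ Ioc (0 : ℤ) (R * T), f (x0 + D * m) =
      (S * (h0 * R) - (h0 * V P) * ∑ m ∈ Ioc (0 : ℤ) (R * T), f (x0 + D * m)) / (h0 * R) := by
    field_simp
  rw [e, abs_div, abs_of_pos hM, div_le_iff₀ hM]
  exact s5

end Pool.Agent.Helper82K9.GK
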