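import Mathlib
import Pool.Agent.W36.FD.FD6
import Pool.Agent.W41.Base2
import Pool.Agent.Helper82K9.GK.SP1

/-! Invariant sets of the `3x+d` maps in sifted progressions: the base estimate. -/

set_option autoImplicit false

namespace Pool.Agent.Helper82K9.GK

open Finset Filter Topology Pool.Agent.H499R2.CO Pool.Agent.H499R2.ND Pool.Agent.W41 Pool.Agent.W36.FD
open Pool.Agent.Results.MP_7f88e4_nt.ResidueClasses (Rel)

theorem ind_invD {d : ℤ} (hd : Odd d) {s : ℤ} (hs : s = 1 ∨ s = -1) {S : Set ℤ} (hS : Inv d S) (x : ℤ) :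
    ind s S (Tz (s * d) x) = ind s S x := by
  have h := side_inv hd hs hS x
  have h' : s * x ∈ S ↔ s * Tz (s * d) x ∈ S := h
  unfold ind
  split_ifs with a b b
  · rfl
  · exact absurd (h'.2 a) b
  · exact absurd (h'.1 b) a
  · rfl

theorem iter_boundD (d : ℤ) (j : ℕ) (x : ℤ) : |(Tz d)^[j] x| ≤ 2 ^ j * (|x| + |d|) := by
  have h1 : ∀ x : ℤ, |Tz d x| + |d| ≤ 2 * (|x| + |d|) := by
    intro x
    unfold Tz
    split_ifs
    · rcases abs_cases x with ⟨h, h'⟩ | ⟨h, h'⟩ <;> rcases abs_cases d with ⟨g, g'⟩ | ⟨g, g'⟩ <;>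
        rcases abs_cases (x / 2) with ⟨u, u'⟩ | ⟨u, u'⟩ <;> omega
    · rcases abs_cases x with ⟨h, h'⟩ | ⟨h, h'⟩ <;> rcases abs_cases d with ⟨g, g'⟩ | ⟨g, g'⟩ <;>
        rcases abs_cases ((3 * x + d) / 2) with ⟨u, u'⟩ | ⟨u, u'⟩ <;> omega
  have h2 : ∀ (j : ℕ) (x : ℤ), |(Tz d)^[j] x| + |d| ≤ 2 ^ j * (|x| + |d|) := by
    intro j
    induction j with
    | zero => intro x; simp
    | succ j ih =>
      intro x
      rw [Function.iterate_succ_apply]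
      calc _ ≤ 2 ^ j * (|Tz d x| + |d|) := ih _
        _ ≤ 2 ^ j * (2 * (|x| + |d|)) := mul_le_mul_of_nonneg_left (h1 x) (by positivity)
        _ = _ := by ring
  have := h2 j x
  have := abs_nonneg d
  linarith

/-- the iterate modulo `d` -/
theorem iter_rel {d : ℤ} (hd : d % 2 = 1) : ∀ (j : ℕ) (x : ℤ), ∃ i : ℕ, d ∣ 2 ^ j * (Tz d)^[j] x - 3 ^ i * x := by
  intro j
  induction j with
  | zero => intro x; exact ⟨0, by simp⟩
  | succ j ih =>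
    intro x
    obtain ⟨i, hi⟩ := ih (Tz d x)
    rw [Function.iterate_succ_apply]
    by_cases hx : x % 2 = 0
    · refine ⟨i, ?_⟩
      have e : Tz d x = x / 2 := by unfold Tz; rw [if_pos hx]
      have e2 : 2 * Tz d x = x := by rw [e]; omega
      have e3 : (2 : ℤ) ^ (j + 1) * (Tz d)^[j] (Tz d x) - 3 ^ i * x =
          2 * (2 ^ j * (Tz d)^[j] (Tz d x) - 3 ^ i * Tz d x) := by
        rw [pow_succ]; linear_combination (3 : ℤ) ^ i * e2
      rw [e3]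
      exact hi.mul_left _
    · refine ⟨i + 1, ?_⟩
      have e : Tz d x = (3 * x + d) / 2 := by unfold Tz; rw [if_neg hx]
      have e2 : 2 * Tz d x = 3 * x + d := by rw [e]; omega
      have e3 : (2 : ℤ) ^ (j + 1) * (Tz d)^[j] (Tz d x) - 3 ^ (i + 1) * x =
          2 * (2 ^ j * (Tz d)^[j] (Tz d x) - 3 ^ i * Tz d x) + d * 3 ^ i := by
        rw [pow_succ, pow_succ]; linear_combination (3 : ℤ) ^ i * e2
      rw [e3]
      exact (hi.mul_left _).add (Dvd.intro _ rfl)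

/-- uniform convergence for all integer residues -/
theorem unif_int {d : ℤ} (hd : d % 6 = 1 ∨ d % 6 = 5) {s : ℤ} (hs : s = 1 ∨ s = -1) {ε : ℝ} (hε : 0 < ε) :
    ∃ N0 : ℕ, 1 ≤ N0 ∧ ∀ S : Set ℤ, Inv d S → ∀ φ : ℤ → ℝ, IsPhi d s S φ → ∀ c : ℤ, ∀ N : ℕ, N0 ≤ N →
      |(cA s S d.natAbs c N : ℝ) - φ c / d.natAbs * N| ≤ ε * N := by
  obtain ⟨N0, hN0, H⟩ := unif_class hd hs hε
  refine ⟨N0, hN0, fun S hS φ hφ c N hN => ?_⟩
  have hD : (0 : ℤ) < (d.natAbs : ℕ) := by omega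
  obtain ⟨c', hc'⟩ : ∃ c' : ℕ, c' = (c % (d.natAbs : ℕ)).toNat := ⟨_, rfl⟩
  have h0 := Int.emod_nonneg c hD.ne'
  have h1 := Int.emod_lt_of_pos c hD
  have hcc : (c' : ℤ) = c % (d.natAbs : ℕ) := by rw [hc', Int.toNat_of_nonneg h0]
  have hmod : (c' : ℤ) ≡ c [ZMOD (d.natAbs : ℕ)] := by rw [hcc]; exact Int.mod_modEq _ _
  have h2 := H S hS _ hφ.2.2 c' (by omega) N hN
  have e1 : cA s S d.natAbs (c' : ℤ) N = cA s S d.natAbs c N := by
    classical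
    unfold cA
    congr 1
    ext m
    simp only [mem_filter]
    constructor
    · rintro ⟨a1, a2, a3⟩; exact ⟨a1, a2, a3.trans hmod⟩
    · rintro ⟨a1, a2, a3⟩; exact ⟨a1, a2, a3.trans hmod.symm⟩
  have e2 : φ (c' : ℤ) = φ c := hφ.2.1 _ _ (rel_of_dvd (Int.natAbs_dvd.1 hmod.symm.dvd))
  simp only [e1, e2] at h2
  exact h2

/-- sums over a class -/
theorem class_sum (f : ℤ → ℝ) (h0 : ∀ x, 0 ≤ f x) (h1 : ∀ x, f x ≤ 1) (x0 : ℤ) {D : ℕ} (hD : 1 ≤ D) (U : ℕ)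
    (hX : |x0| ≤ x0 + D * U) :
    |∑ m ∈ Ioc (0 : ℤ) U, f (x0 + D * m) -
      ∑ n ∈ (Ioc (0 : ℤ) (x0 + D * U)).filter (fun n => (D : ℤ) ∣ n - x0), f n| ≤ |(x0 : ℝ)| := by
  classical
  have hD0 : (0 : ℤ) < D := by exact_mod_cast hD
  set g : ℤ → ℝ := fun n => if (D : ℤ) ∣ n - x0 then f n else 0 with hg
  have g0 : ∀ x, 0 ≤ g x := fun x => by simp only [hg]; split_ifs; exacts [h0 x, le_rfl]
  have g1 : ∀ x, g x ≤ 1 := fun x => by simp only [hg]; split_ifs; exacts [h1 x, zero_le_one]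
  have e1 : ∑ m ∈ Ioc (0 : ℤ) U, f (x0 + D * m) = ∑ n ∈ Ioc x0 (x0 + D * U), g n := by
    rw [hg, ← sum_filter]
    symm
    apply sum_bij' (fun n _ => (n - x0) / D) (fun m _ => x0 + D * m)
    · intro n hn
      rw [mem_filter, mem_Ioc] at hn
      obtain ⟨⟨a1, a2⟩, c, hc⟩ := hn
      rw [hc, Int.mul_ediv_cancel_left _ hD0.ne', mem_Ioc]
      constructor
      · have : 0 < (D : ℤ) * c := by omega
        exact (mul_pos_iff_of_pos_left hD0).1 this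
      · have : (D : ℤ) * c ≤ D * U := by omega
        exact le_of_mul_le_mul_left this hD0
    · intro m hm
      rw [mem_Ioc] at hm
      rw [mem_filter, mem_Ioc]
      refine ⟨⟨?_, ?_⟩, ⟨m, by ring⟩⟩
      · have : 0 < (D : ℤ) * m := mul_pos hD0 hm.1
        omega
      · have : (D : ℤ) * m ≤ D * U := mul_le_mul_of_nonneg_left hm.2 hD0.le
        omega
    · intro n hn
      rw [mem_filter] at hn
      rw [Int.mul_ediv_cancel' hn.2]; ring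
    · intro m _
      have : x0 + (D : ℤ) * m - x0 = D * m := by ring
      rw [this, Int.mul_ediv_cancel_left _ hD0.ne']
    · intro n hn
      rw [mem_filter] at hn
      rw [Int.mul_ediv_cancel' hn.2]
      congr 1; ring
  have e2 : ∑ n ∈ (Ioc (0 : ℤ) (x0 + D * U)).filter (fun n => (D : ℤ) ∣ n - x0), f n =
      ∑ n ∈ Ioc (0 : ℤ) (x0 + D * U), g n := by
    rw [hg, ← sum_filter]
  rw [e1, e2]
  exact shift_start g g0 g1 x0 _ hX

theorem cA_eq_sum (s : ℤ) (hs : s = 1 ∨ s = -1) (S : Set ℤ) (D : ℕ) (c : ℤ) (X : ℕ) :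
    (cA s S D (s * c) X : ℝ) = ∑ n ∈ (Ioc (0 : ℤ) X).filter (fun n => (D : ℤ) ∣ n - c), ind s S n := by
  classical
  have hmod : ∀ n : ℤ, (s * n ≡ s * c [ZMOD D]) ↔ (D : ℤ) ∣ n - c := by
    intro n
    constructor
    · intro h
      have := h.mul_left s
      rw [s_mul hs, s_mul hs] at this
      exact this.symm.dvd
    · intro h
      exact (Int.modEq_iff_dvd.2 h).symm.mul_left s
  unfold cA
  rw [card_filter]
  push_cast
  rw [sum_filter]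
  apply sum_bij' (fun (m : ℕ) _ => (m : ℤ)) (fun (m : ℤ) _ => m.toNat)
  · intro m hm
    rw [mem_Icc] at hm
    rw [mem_Ioc]; omega
  · intro m hm
    rw [mem_Ioc] at hm
    rw [mem_Icc]; omega
  · intro m _; simp
  · intro m hm
    rw [mem_Ioc] at hm
    simp only [Int.toNat_of_nonneg hm.1.le]
  · intro m _
    unfold ind
    by_cases h1 : s * (m : ℤ) ∈ S <;> by_cases h2 : (D : ℤ) ∣ (m : ℤ) - c <;> simp [h1, h2, hmod]

/-- the mean value over the class -/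
theorem mean_valD {d : ℤ} {s : ℤ} (hs : s = 1 ∨ s = -1) {S : Set ℤ} {φ : ℤ → ℝ} (hφ : ∀ x, 0 ≤ φ x ∧ φ x ≤ 1)
    {ε : ℝ} (hε : 0 < ε) (hε1 : ε ≤ 1) (hD : 1 ≤ d.natAbs)
    {N1 : ℕ} (H : ∀ c : ℤ, ∀ N : ℕ, N1 ≤ N → |(cA s S d.natAbs c N : ℝ) - φ c / d.natAbs * N| ≤ ε / d.natAbs * N)
    {x0 : ℤ} {l R T : ℕ} (hx0 : |x0| ≤ 2 * (l : ℤ) ^ 2) (hT : 4 * l ^ 2 + N1 ≤ T) (hR : 1 ≤ R) :
    |∑ m ∈ Ioc (0 : ℤ) (R * T), ind s S (x0 + d.natAbs * m) - φ (s * x0) * (R * T)| ≤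
      ε * (R * T) + 6 * (l : ℝ) ^ 2 := by
  obtain ⟨D, hDdef⟩ : ∃ D : ℕ, D = d.natAbs := ⟨_, rfl⟩
  rw [← hDdef] at hD H ⊢
  have hDz : (1 : ℤ) ≤ D := by exact_mod_cast hD
  have hDR : (1 : ℝ) ≤ D := by exact_mod_cast hD
  have hD0R : (0 : ℝ) < D := by linarith
  have hTz : 4 * (l : ℤ) ^ 2 + N1 ≤ T := by exact_mod_cast hT
  have hRz : (1 : ℤ) ≤ R := by exact_mod_cast hR
  have hT0 : (0 : ℤ) ≤ T := Int.natCast_nonneg T
  have hRT : (T : ℤ) ≤ R * T := by nlinarith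
  have hDRT : (T : ℤ) ≤ D * (R * T) := by nlinarith
  have h1 := neg_abs_le x0
  have h2 := le_abs_self x0
  obtain ⟨X, hX⟩ : ∃ X : ℤ, X = x0 + D * (R * T) := ⟨_, rfl⟩
  have hl2 : (0 : ℤ) ≤ (l : ℤ) ^ 2 := sq_nonneg _
  have hXx : |x0| ≤ X := by rw [hX]; linarith [Int.natCast_nonneg N1]
  have hXN : (N1 : ℤ) ≤ X := by rw [hX]; linarith
  have hX0 : 0 ≤ X := (abs_nonneg _).trans hXx
  have a1 := class_sum (ind s S) (ind_nonneg s S) (ind_le_one s S) x0 hD (R * T) (by push_cast; rw [← hX]; exact hXx)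
  push_cast at a1
  rw [← hX] at a1
  have a2 := H (s * x0) X.toNat (by omega)
  have hXn : ((X.toNat : ℕ) : ℤ) = X := Int.toNat_of_nonneg hX0
  have hXnR : ((X.toNat : ℕ) : ℝ) = X := by exact_mod_cast hXn
  rw [cA_eq_sum s hs, hXn, hXnR] at a2
  have hXR : (X : ℝ) = x0 + D * (R * T) := by exact_mod_cast hX
  have hx0R : |(x0 : ℝ)| ≤ 2 * (l : ℝ) ^ 2 := by exact_mod_cast hx0
  have b1 := neg_abs_le (x0 : ℝ)
  have b2 := le_abs_self (x0 : ℝ)
  obtain ⟨p0, p1⟩ := hφ (s * x0)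
  have e : ∑ m ∈ Ioc (0 : ℤ) (R * T), ind s S (x0 + D * m) - φ (s * x0) * (R * T) =
      (∑ m ∈ Ioc (0 : ℤ) (R * T), ind s S (x0 + D * m) -
        ∑ n ∈ (Ioc (0 : ℤ) X).filter (fun n => (D : ℤ) ∣ n - x0), ind s S n) +
      (∑ n ∈ (Ioc (0 : ℤ) X).filter (fun n => (D : ℤ) ∣ n - x0), ind s S n - φ (s * x0) / D * X) +
      φ (s * x0) / D * x0 := by
    rw [hXR]; field_simp; ring
  rw [e]
  have q1 : φ (s * x0) / D ≤ 1 := by
    rw [div_le_one hD0R]; linarith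
  have q0 : 0 ≤ φ (s * x0) / D := by positivity
  have a3 : |φ (s * x0) / D * (x0 : ℝ)| ≤ |(x0 : ℝ)| := by
    rw [abs_mul, abs_of_nonneg q0]
    exact mul_le_of_le_one_left (abs_nonneg _) q1
  have a4 := abs_add_three (∑ m ∈ Ioc (0 : ℤ) (R * T), ind s S (x0 + D * m) -
        ∑ n ∈ (Ioc (0 : ℤ) X).filter (fun n => (D : ℤ) ∣ n - x0), ind s S n)
    (∑ n ∈ (Ioc (0 : ℤ) X).filter (fun n => (D : ℤ) ∣ n - x0), ind s S n - φ (s * x0) / D * X)
    (φ (s * x0) / D * x0)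
  have hεD : ε / D ≤ 1 := by rw [div_le_one hD0R]; linarith
  have a5 : ε / D * (X : ℝ) ≤ ε * (R * T) + 2 * (l : ℝ) ^ 2 := by
    rw [hXR]
    have e1 : ε / D * ((x0 : ℝ) + D * (R * T)) = ε / D * x0 + ε * (R * T) := by field_simp
    rw [e1]
    have : ε / D * (x0 : ℝ) ≤ 2 * (l : ℝ) ^ 2 := by
      calc ε / D * (x0 : ℝ) ≤ ε / D * |(x0 : ℝ)| := mul_le_mul_of_nonneg_left b2 (by positivity)
        _ ≤ |(x0 : ℝ)| := mul_le_of_le_one_left (abs_nonneg _) hεD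
        _ ≤ _ := hx0R
    linarith
  linarith

/-- final numerics -/
theorem fin_numD {A δ ε V T Nq l R M : ℝ} {K W2 : ℕ} (hε : 0 < ε) (hε1 : ε ≤ 1) (hδ0 : 0 ≤ δ) (hδ1 : δ ≤ 1)
    (hV0 : 0 < V) (hV1 : V ≤ 1) (hVl : 1 / l ≤ V) (hR : 1 ≤ R) (hT0 : 0 ≤ T)
    (hT1 : T ≤ Nq + 1) (hT2 : Nq - 1 ≤ T) (hN : l ^ (2 * W2 - 1) ≤ Nq) (hW : K + 10 ≤ W2)
    (hl : 40 / ε ≤ l) (hl1 : 10 ≤ l)
    (h1 : |A - V / R * M| ≤ ε / 4 * (T * V) + l ^ K)
    (h2 : |M - δ * (R * T)| ≤ ε / 4 * (R * T) + 6 * l ^ 2) :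
    |A - δ * (V * Nq)| ≤ ε * (V * Nq) := by
  have hR0 : 0 < R := by linarith
  have hl0 : 0 < l := by linarith
  have hVR : V / R ≤ 1 := by rw [div_le_one hR0]; linarith
  have hVR0 : 0 < V / R := by positivity
  have e1 : V / R * M - δ * (V * T) = V / R * (M - δ * (R * T)) := by field_simp
  have h3 : |V / R * M - δ * (V * T)| ≤ ε / 4 * (V * T) + 6 * l ^ 2 := by
    rw [e1, abs_mul, abs_of_pos hVR0]
    calc V / R * |M - δ * (R * T)| ≤ V / R * (ε / 4 * (R * T) + 6 * l ^ 2) := mul_le_mul_of_nonneg_left h2 hVR0.le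
      _ = ε / 4 * (V * T) + V / R * (6 * l ^ 2) := by field_simp
      _ ≤ ε / 4 * (V * T) + 6 * l ^ 2 := by
          have : V / R * (6 * l ^ 2) ≤ 6 * l ^ 2 := mul_le_of_le_one_left (by positivity) hVR
          linarith
  have h4 : |δ * (V * T) - δ * (V * Nq)| ≤ 1 := by
    have : δ * (V * T) - δ * (V * Nq) = (δ * V) * (T - Nq) := by ring
    rw [this, abs_mul, abs_of_nonneg (by positivity)]
    have h5 : |T - Nq| ≤ 1 := by rw [abs_le]; constructor <;> linarith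
    have h6 : δ * V ≤ 1 := mul_le_one₀ hδ1 hV0.le hV1
    calc _ ≤ 1 * 1 := mul_le_mul h6 h5 (abs_nonneg _) (by norm_num)
      _ = 1 := by norm_num
  have h7 : |A - δ * (V * Nq)| ≤ ε / 4 * (T * V) + l ^ K + (ε / 4 * (V * T) + 6 * l ^ 2) + 1 := by
    have e2 : A - δ * (V * Nq) = (A - V / R * M) + (V / R * M - δ * (V * T)) + (δ * (V * T) - δ * (V * Nq)) := by ring
    rw [e2]
    refine (abs_add_three _ _ _).trans ?_
    linarith
  have h8 : ε / 4 * (T * V) ≤ ε / 4 * (V * Nq) + 1 := by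
    have : T * V ≤ V * Nq + 1 := by nlinarith
    have h9 : ε / 4 * (T * V) ≤ ε / 4 * (V * Nq + 1) := mul_le_mul_of_nonneg_left this (by positivity)
    linarith
  have h10 : l ^ K + 6 * l ^ 2 + 3 ≤ 10 * l ^ (K + 2) := by
    have a1 : l ^ 2 ≤ l ^ (K + 2) := pow_le_pow_right₀ (by linarith) (by omega)
    have a2 : l ^ K ≤ l ^ (K + 2) := pow_le_pow_right₀ (by linarith) (by omega)
    have a3 : 1 ≤ l ^ (K + 2) := one_le_pow₀ (by linarith)
    linarith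
  have h11 : 10 * l ^ (K + 2) ≤ ε / 4 * l ^ (K + 3) := by
    have a1 : 40 ≤ ε * l := by
      rw [div_le_iff₀ hε] at hl
      linarith
    have a2 : 0 < l ^ (K + 2) := by positivity
    have a3 : l ^ (K + 3) = l ^ (K + 2) * l := pow_succ _ _
    rw [a3]
    nlinarith
  have h12 : l ^ (K + 3) ≤ V * Nq := by
    calc l ^ (K + 3) ≤ l ^ (2 * W2 - 2) := pow_le_pow_right₀ (by linarith) (by omega)
      _ = 1 / l * l ^ (2 * W2 - 1) := by
          have : 2 * W2 - 1 = (2 * W2 - 2) + 1 := by omega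
          rw [this, pow_succ]; field_simp
      _ ≤ V * Nq := mul_le_mul hVl hN (by positivity) hV0.le
  have h13 : ε / 4 * l ^ (K + 3) ≤ ε / 4 * (V * Nq) := mul_le_mul_of_nonneg_left h12 (by positivity)
  have h14 : T * V = V * T := mul_comm _ _
  rw [h14] at h7 h8
  have h15 : 0 ≤ V * Nq := le_trans (by positivity) h12
  have h16 : 0 ≤ ε * (V * Nq) := mul_nonneg hε.le h15
  linarith

end Pool.Agent.Helper82K9.GK
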