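import Mathlib
import Pool.Agent.W41.Fin
import Pool.Agent.Helper82K9.GK.SP2

/-! Invariant sets of the `3x+d` maps in sifted progressions to moduli which are multiples of `d`. -/

set_option autoImplicit false

namespace Pool.Agent.Helper82K9.GK

open Finset Filter Topology Pool.Agent.H499R2.CO Pool.Agent.H499R2.ND Pool.Agent.W41 Pool.Agent.W36.FD
open Pool.Agent.Results.MP_7f88e4_nt.ResidueClasses (Rel)

theorem phi_mul {d s : ℤ} {S : Set ℤ} {φ : ℤ → ℝ} (hφ : IsPhi d s S φ) (i j : ℕ) (x : ℤ) :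
    φ (2 ^ i * 3 ^ j * x) = φ x := hφ.2.1 _ _ ⟨i, j, Int.ModEq.refl _⟩

theorem phi_dvd {d s : ℤ} {S : Set ℤ} {φ : ℤ → ℝ} (hφ : IsPhi d s S φ) {x y : ℤ} (h : d ∣ x - y) :
    φ x = φ y := hφ.2.1 _ _ (rel_of_dvd h)

/-- the local density along the iterate -/
theorem phi_iter {d : ℤ} (hd : d % 2 = 1) {s : ℤ} (hs : s = 1 ∨ s = -1) {S : Set ℤ} {φ : ℤ → ℝ}
    (hφ : IsPhi d s S φ) (j : ℕ) (x : ℤ) : φ (s * (Tz (s * d))^[j] x) = φ (s * x) := by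
  have hsd : (s * d) % 2 = 1 := by rcases hs with rfl | rfl <;> omega
  obtain ⟨i, hi⟩ := iter_rel hsd j x
  have h1 : d ∣ 2 ^ j * (Tz (s * d))^[j] x - 3 ^ i * x := (Dvd.intro_left s rfl : d ∣ s * d).trans hi
  have h2 : d ∣ 2 ^ j * 3 ^ 0 * (s * (Tz (s * d))^[j] x) - 2 ^ 0 * 3 ^ i * (s * x) := by
    have : (2 : ℤ) ^ j * 3 ^ 0 * (s * (Tz (s * d))^[j] x) - 2 ^ 0 * 3 ^ i * (s * x) =
        s * (2 ^ j * (Tz (s * d))^[j] x - 3 ^ i * x) := by ring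
    rw [this]; exact h1.mul_left s
  have h3 := phi_dvd hφ h2
  rwa [phi_mul hφ, phi_mul hφ] at h3

/-- THE BASE ESTIMATE, in terms of the root `l`. -/
theorem base_lD {d : ℤ} (hd6 : d % 6 = 1 ∨ d % 6 = 5) {s : ℤ} (hs : s = 1 ∨ s = -1) {ε : ℝ} (hε : 0 < ε)
    (hε1 : ε ≤ 1) : ∃ W2 l0 : ℕ, 10 ≤ W2 ∧
    10 ≤ l0 ∧ ∀ S : Set ℤ, Inv d S → ∀ φ : ℤ → ℝ, IsPhi d s S φ → ∀ l : ℕ, l0 ≤ l → ∀ N : ℕ, l ^ (2 * W2) ≤ N →
    ∀ q : ℕ, 1 ≤ q → q ≤ l → d.natAbs ∣ q → ∀ P : Finset ℕ, (∀ p ∈ P, p.Prime ∧ p ≤ l ∧ ¬ p ∣ q) → ∀ a : ℤ,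
    |As (ind s S) N q a P - φ (s * a) * (V P * (N / q))| ≤ ε * (V P * (N / q)) ∧ (l : ℝ) ^ W2 ≤ V P * (N / q) := by
  have hε3 : 0 < ε / 4 := by positivity
  have hD1 : 1 ≤ d.natAbs := by omega
  have hDR1 : (1 : ℝ) ≤ d.natAbs := by exact_mod_cast hD1
  obtain ⟨K, y0, k0, θ, hK, hy0, hθ, Hc⟩ := coreD hε3 (by linarith)
  obtain ⟨N1, hN11, HN1⟩ := unif_int hd6 hs (show 0 < ε / 4 / d.natAbs by positivity)
  obtain ⟨B, hB⟩ := exists_nat_ge (2 * ((K : ℝ) + 2) / θ)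
  obtain ⟨E, hE⟩ := exists_nat_ge (40 / ε)
  obtain ⟨W2, hW2⟩ : ∃ W2 : ℕ, W2 = B + K + 10 := ⟨_, rfl⟩
  obtain ⟨k2, hk2⟩ : ∃ k2 : ℕ, k2 = 2 ^ k0 := ⟨_, rfl⟩
  refine ⟨W2, y0 + k2 + N1 + E + 10, by omega, by omega, ?_⟩
  intro S hS φ hφ l hl N hN q hq hql hDq P hP a
  obtain ⟨D, hDdef⟩ : ∃ D : ℕ, D = d.natAbs := ⟨_, rfl⟩
  rw [← hDdef] at hDq hD1
  have hPl : ∀ p ∈ P, p.Prime ∧ p ≤ l := fun p hp => ⟨(hP p hp).1, (hP p hp).2.1⟩
  have hPp : ∀ p ∈ P, p.Prime := fun p hp => (hP p hp).1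
  have hl10 : 10 ≤ l := by omega
  have hlR : (10 : ℝ) ≤ l := by exact_mod_cast hl10
  have hl0R : (0 : ℝ) < l := by linarith
  have hqR : (1 : ℝ) ≤ q := by exact_mod_cast hq
  have hq0R : (0 : ℝ) < q := by linarith
  have hq0 : (0 : ℤ) < q := by exact_mod_cast hq
  have hVl : 1 / (l : ℝ) ≤ V P := V_ge hPp (by omega) (fun p hp => (hPl p hp).2)
  have hV0 := V_pos hPp
  have hd2 : d % 2 = 1 := by omega
  have hdodd : Odd d := Int.odd_iff.2 hd2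
  have hD2 : D % 2 = 1 := by omega
  have hDl : D ≤ l := (Nat.le_of_dvd (by omega) hDq).trans hql
  -- splitting off the power of two
  obtain ⟨j, q', hq'2, hqq⟩ : ∃ j q' : ℕ, q' % 2 = 1 ∧ q = 2 ^ j * q' := by
    obtain ⟨j, q', h1, h2⟩ := Nat.exists_eq_two_pow_mul_odd (n := q) (by omega)
    exact ⟨j, q', Nat.odd_iff.1 h1, h2⟩
  obtain ⟨i, hij, hi⟩ := iter_affine (s * d) j (-((-a) % q))
  obtain ⟨hjl, hR2, hRodd, hR1⟩ := sizes hq'2 hqq hij hql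
  obtain ⟨q'', hq''⟩ : D ∣ q' := by
    have hco : Nat.Coprime D (2 ^ j) :=
      Nat.Coprime.pow_right _ (Nat.coprime_two_right.2 (Nat.odd_iff.2 hD2))
    rw [hqq] at hDq
    exact hco.dvd_of_dvd_mul_left hDq
  obtain ⟨R, hR⟩ : ∃ R : ℕ, R = 3 ^ i * q'' := ⟨_, rfl⟩
  have hDR : 3 ^ i * q' = D * R := by rw [hq'', hR]; ring
  rw [hDR] at hR2 hRodd hR1
  have hRpos : 1 ≤ R := by
    rcases Nat.eq_zero_or_pos R with h | h
    · rw [h, mul_zero] at hR1; omega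
    · exact h
  have hRodd' : R % 2 = 1 := by
    rcases Nat.mod_two_eq_zero_or_one R with h | h
    · rw [Nat.mul_mod, h] at hRodd; simp at hRodd
    · exact h
  have hRl : R ≤ l ^ 2 := le_trans (Nat.le_mul_of_pos_left _ (by omega)) hR2
  obtain ⟨x0, hx0⟩ : ∃ x0 : ℤ, x0 = (Tz (s * d))^[j] (-((-a) % q)) := ⟨_, rfl⟩
  have hb0 : 0 ≤ (-a) % (q : ℤ) := Int.emod_nonneg _ hq0.ne'
  have hb1 : (-a) % (q : ℤ) < q := Int.emod_lt_of_pos _ hq0
  have hDz : |s * d| = D := by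
    rw [abs_mul, hDdef, Int.natCast_natAbs]
    rcases hs with rfl | rfl <;> simp
  have hx0b : |x0| ≤ 2 * (l : ℤ) ^ 2 := by
    have h1 := iter_boundD (s * d) j (-((-a) % q))
    have h2 : |(-((-a) % (q : ℤ)))| ≤ l := by
      rw [abs_neg, abs_of_nonneg hb0]
      have : (q : ℤ) ≤ l := by exact_mod_cast hql
      linarith
    have h3 : (2 : ℤ) ^ j ≤ l := by exact_mod_cast hjl
    have h4 : (D : ℤ) ≤ l := by exact_mod_cast hDl
    rw [hDz] at h1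
    rw [hx0]
    calc _ ≤ 2 ^ j * (|(-((-a) % (q : ℤ)))| + D) := h1
      _ ≤ l * (l + l) := mul_le_mul h3 (by linarith) (by positivity) (by positivity)
      _ = _ := by ring
  rw [← hx0] at hi
  -- the number of terms
  obtain ⟨hT1, hT2⟩ := terms (N := N) hq a
  have hre := reindex (ind s S) N q hq a P
  obtain ⟨T, hT⟩ : ∃ T : ℕ, T = ((N + (-a) % q) / q).toNat := ⟨_, rfl⟩
  rw [← hT] at hT1 hT2 hre
  have hNq : (l : ℝ) ^ (2 * W2 - 1) ≤ N / q := by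
    rw [le_div_iff₀ hq0R]
    calc (l : ℝ) ^ (2 * W2 - 1) * q ≤ (l : ℝ) ^ (2 * W2 - 1) * l := by
          apply mul_le_mul_of_nonneg_left _ (by positivity)
          exact_mod_cast hql
      _ = (l : ℝ) ^ (2 * W2) := by rw [← pow_succ]; congr 1; omega
      _ ≤ N := by exact_mod_cast hN
  have hTl : l ^ (W2 + K) ≤ T := by
    have h3 : (l : ℝ) ^ (W2 + K) + 1 ≤ (l : ℝ) ^ (2 * W2 - 1) := by
      have h4 : (l : ℝ) ^ (W2 + K + 1) ≤ (l : ℝ) ^ (2 * W2 - 1) :=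
        pow_le_pow_right₀ (by linarith) (by omega)
      have h5 : (1 : ℝ) ≤ (l : ℝ) ^ (W2 + K) := one_le_pow₀ (by linarith)
      rw [pow_succ] at h4
      nlinarith
    have h2 : ((l ^ (W2 + K) : ℕ) : ℝ) ≤ T := by
      push_cast
      linarith
    exact_mod_cast h2
  -- the number of steps
  obtain ⟨lam, hlam⟩ : ∃ lam : ℕ, lam = Nat.log 2 l := ⟨_, rfl⟩
  have hlam1 : 2 ^ lam ≤ l := by rw [hlam]; exact Nat.pow_log_le_self 2 (by omega)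
  have hlam2 : l < 2 ^ (lam + 1) := by rw [hlam]; exact Nat.lt_pow_succ_log_self (by norm_num) l
  have hlamk : k0 ≤ lam := by
    rw [hlam]
    apply Nat.le_log_of_pow_le (by norm_num)
    rw [← hk2]; omega
  have hlam0 : 1 ≤ lam := by
    rw [hlam]
    apply Nat.le_log_of_pow_le (by norm_num)
    omega
  obtain ⟨k, hk⟩ : ∃ k : ℕ, k = lam * W2 := ⟨_, rfl⟩
  have hk0 : k0 ≤ k := by rw [hk]; exact hlamk.trans (Nat.le_mul_of_pos_right _ (by omega))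
  have h2k : 2 ^ k ≤ l ^ W2 := by
    rw [hk, pow_mul]; exact Nat.pow_le_pow_left hlam1 _
  have hTbig : 2 ^ k * l ^ K ≤ T := by
    refine le_trans ?_ hTl
    rw [pow_add]; exact Nat.mul_le_mul_right _ h2k
  have hwin := win_num (k := k) hθ hB (by omega : B ≤ W2) hlam0 hlam2 hk hRl
  have hPq : ∀ p ∈ P, ¬ (p : ℤ) ∣ q := fun p hp hd => (hP p hp).2.2 (by exact_mod_cast hd)
  obtain ⟨σ, hσ, hσd⟩ : ∃ σ : ℤ, (σ = 1 ∨ σ = -1) ∧ s * d = σ * D := by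
    have h1 : (D : ℤ) = |d| := by rw [hDdef, Int.natCast_natAbs]
    rcases abs_choice d with h | h
    · exact ⟨s, hs, by rw [h1, h]⟩
    · refine ⟨-s, by rcases hs with rfl | rfl <;> simp, by rw [h1, h]; ring⟩
  have hfi : ∀ x, ind s S (Tz (s * d) x) = ind s S x := ind_invD hdodd hs hS
  have hmain := Hc l (by omega) k hk0 T hTbig P hPl (-((-a) % q)) q hPq D hD2 (s * d) σ hσd hσ x0 R hRodd'
    (l ^ K) le_rfl hwin (ind s S) (ind_nonneg s S) (ind_le_one s S) hfi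
  have hAs : As (ind s S) N q a P = ∑ t ∈ Icc 1 T, wt P (-((-a) % q)) q (t : ℕ) * ind s S (x0 + D * (R * (t : ℕ))) := by
    rw [hre]
    apply sum_congr rfl
    intro t _
    congr 1
    have h1 : -((-a) % (q : ℤ)) + (q : ℤ) * (t : ℕ) = -((-a) % q) + 2 ^ j * (q' * (t : ℕ)) := by
      have : (q : ℤ) = 2 ^ j * q' := by exact_mod_cast hqq
      linear_combination ((t : ℕ) : ℤ) * this
    rw [h1, ← iter_inv hfi j, hi]
    congr 1
    have h2 : (3 : ℤ) ^ i * q' = D * R := by exact_mod_cast hDR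
    linear_combination ((t : ℕ) : ℤ) * h2
  rw [← hAs] at hmain
  -- the mean value
  have hTb : 4 * l ^ 2 + N1 ≤ T := by
    refine le_trans ?_ hTl
    have h1 : l ^ 3 ≤ l ^ (W2 + K) := Nat.pow_le_pow_right (by omega) (by omega)
    have h2 : l ^ 3 = l * l ^ 2 := by ring
    have h3 : l ≤ l ^ 2 := by nlinarith
    have h4 : 5 * l ^ 2 ≤ l * l ^ 2 := Nat.mul_le_mul_right _ (by omega)
    omega
  have hmean := mean_valD (d := d) hs hφ.1 hε3 (by linarith) (by omega) (fun c N hN => HN1 S hS φ hφ c N hN) hx0b hTb hRpos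
  rw [← hDdef] at hmean
  have hφa : φ (s * x0) = φ (s * a) := by
    rw [hx0, phi_iter hd2 hs hφ]
    apply phi_dvd hφ
    have h1 : (q : ℤ) ∣ -((-a) % q) - a := by
      have h2 := Int.emod_add_mul_ediv (-a) q
      refine ⟨(-a) / q, ?_⟩
      linarith
    have h3 : (D : ℤ) ∣ (q : ℤ) := by exact_mod_cast hDq
    have h4 : d ∣ (D : ℤ) := by rw [hDdef]; exact Int.dvd_natAbs_self
    have h5 : s * -((-a) % (q : ℤ)) - s * a = s * (-((-a) % q) - a) := by ring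
    rw [h5]
    exact ((h4.trans h3).trans h1).mul_left s
  rw [hφa] at hmean
  obtain ⟨hδ0, hδ1⟩ := hφ.1 (s * a)
  have hlK : ((l ^ K : ℕ) : ℝ) = (l : ℝ) ^ K := by push_cast; rfl
  rw [hlK] at hmain
  constructor
  · exact fin_numD (W2 := W2) hε hε1 hδ0 hδ1 hV0 (V_le_one hPp) hVl (by exact_mod_cast hRpos)
      (Nat.cast_nonneg _) hT1 hT2 hNq (by omega) (hE.trans (by exact_mod_cast (by omega : E ≤ l))) hlR hmain hmean
  · calc (l : ℝ) ^ W2 ≤ (l : ℝ) ^ (2 * W2 - 2) := pow_le_pow_right₀ (by linarith) (by omega)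
      _ = 1 / l * (l : ℝ) ^ (2 * W2 - 1) := by
          have : 2 * W2 - 1 = (2 * W2 - 2) + 1 := by omega
          rw [this, pow_succ]; field_simp
      _ ≤ V P * (N / q) := mul_le_mul hVl hNq (by positivity) hV0.le

end Pool.Agent.Helper82K9.GK
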