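import Mathlib
import Pool.Agent.W41.Fin
import Pool.Agent.Helper82K9.GK.SP3

/-! Invariant sets of the `3x+d` maps in sifted progressions: intervals, all moduli. -/

set_option autoImplicit false

namespace Pool.Agent.Helper82K9.GK

open Finset Filter Topology Pool.Agent.H499R2.CO Pool.Agent.H499R2.ND Pool.Agent.W41 Pool.Agent.W36.FD
open Pool.Agent.Results.MP_7f88e4_nt.ResidueClasses (Rel)

theorem intervalD {d : ℤ} (hd6 : d % 6 = 1 ∨ d % 6 = 5) {s : ℤ} (hs : s = 1 ∨ s = -1) {ε : ℝ} (hε : 0 < ε)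
    (hε1 : ε ≤ 1) : ∃ θ : ℝ, 0 < θ ∧ ∃ N0 : ℕ, 2 ≤ N0 ∧
    ∀ S : Set ℤ, Inv d S → ∀ φ : ℤ → ℝ, IsPhi d s S φ → ∀ N : ℕ, N0 ≤ N → ∀ M : ℕ, M ≤ N →
    ∀ q : ℕ, 1 ≤ q → (q : ℝ) ≤ (N : ℝ) ^ θ → d.natAbs ∣ q →
    ∀ P : Finset ℕ, (∀ p ∈ P, p.Prime ∧ (p : ℝ) ≤ (N : ℝ) ^ θ ∧ ¬ p ∣ q) →
    ∀ a : ℤ, |(As (ind s S) N q a P - As (ind s S) M q a P) - φ (s * a) * (V P * ((N - M) / q))| ≤
      ε * (V P * (N / q)) := by
  obtain ⟨W2, l0, hW2, hl0, H⟩ := base_lD hd6 hs (show 0 < ε / 4 by positivity) (by linarith)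
  obtain ⟨E, hE⟩ := exists_nat_ge (4 / ε)
  obtain ⟨c, hc⟩ : ∃ c : ℕ, c = l0 + E := ⟨_, rfl⟩
  have hW0 : (0 : ℝ) < W2 := by exact_mod_cast (by omega : 0 < W2)
  refine ⟨1 / (8 * W2 : ℝ), by positivity, c ^ (8 * W2), ?_, ?_⟩
  · calc 2 ≤ c := by omega
      _ ≤ c ^ (8 * W2) := Nat.le_self_pow (by omega) _
  intro S hS φ hφ N hN M hMN q hq hqN hDq P hP a
  obtain ⟨l, hcl, hNl, hlN⟩ := choose_l (by omega) (by omega : 2 ≤ c) hN
  have hql : q ≤ l := by exact_mod_cast hqN.trans hNl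
  have hPl : ∀ p ∈ P, p.Prime ∧ p ≤ l ∧ ¬ p ∣ q := fun p hp =>
    ⟨(hP p hp).1, by exact_mod_cast (hP p hp).2.1.trans hNl, (hP p hp).2.2⟩
  have hPp : ∀ p ∈ P, p.Prime := fun p hp => (hP p hp).1
  have hV0 := V_pos hPp
  have hV1 := V_le_one hPp
  have hVl : 1 / (l : ℝ) ≤ V P := V_ge hPp (by omega) (fun p hp => (hPl p hp).2.1)
  have hq0 : (0 : ℝ) < q := by exact_mod_cast hq
  have hl2N : l ^ (2 * W2) ≤ N := le_trans (Nat.pow_le_pow_right (by omega) (by omega)) hlN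
  obtain ⟨a1, -⟩ := H S hS φ hφ l (by omega) N hl2N q hq hql hDq P hPl a
  have hMR : (M : ℝ) ≤ N := by exact_mod_cast hMN
  obtain ⟨δ, hδ⟩ : ∃ δ : ℝ, δ = φ (s * a) := ⟨_, rfl⟩
  obtain ⟨hδ0, hδ1⟩ := hφ.1 (s * a)
  rw [← hδ] at hδ0 hδ1 a1 ⊢
  have hEN : 0 ≤ V P * ((N : ℝ) / q) := by positivity
  have e : (As (ind s S) N q a P - As (ind s S) M q a P) - δ * (V P * ((N - M) / q)) =
      (As (ind s S) N q a P - δ * (V P * (N / q))) - (As (ind s S) M q a P - δ * (V P * (M / q))) := by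
    rw [sub_div]; ring
  rw [e]
  refine (abs_sub _ _).trans ?_
  have a2 : |As (ind s S) M q a P - δ * (V P * (M / q))| ≤ ε / 2 * (V P * (N / q)) := by
    rcases le_or_gt N (M ^ 2) with h | h
    · have hlM : l ^ (2 * W2) ≤ M := by
        have h1 : (l ^ (2 * W2)) ^ 2 ≤ M ^ 2 := by
          rw [← pow_mul]
          calc l ^ (2 * W2 * 2) = l ^ (4 * W2) := by congr 1; ring
            _ ≤ N := hlN
            _ ≤ M ^ 2 := h
        exact le_of_pow_le_pow_left₀ (by norm_num) (Nat.zero_le _) h1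
      obtain ⟨a3, -⟩ := H S hS φ hφ l (by omega) M hlM q hq hql hDq P hPl a
      rw [← hδ] at a3
      refine a3.trans ?_
      have : V P * ((M : ℝ) / q) ≤ V P * (N / q) :=
        mul_le_mul_of_nonneg_left (div_le_div_of_nonneg_right hMR hq0.le) hV0.le
      nlinarith
    · -- `M` is small
      have b1 : |As (ind s S) M q a P - δ * (V P * (M / q))| ≤ M := by
        have c1 := As_nonneg (ind_nonneg s S) M q a P
        have c2 := As_le (ind_nonneg s S) (ind_le_one s S) M q a P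
        have c3 : 0 ≤ δ * (V P * ((M : ℝ) / q)) := by positivity
        have c4 : δ * (V P * ((M : ℝ) / q)) ≤ M := by
          have d1 : (M : ℝ) / q ≤ M := div_le_self (Nat.cast_nonneg _) (by exact_mod_cast hq)
          have d2 : V P * ((M : ℝ) / q) ≤ 1 * M := mul_le_mul hV1 d1 (by positivity) (by norm_num)
          calc _ ≤ 1 * (V P * ((M : ℝ) / q)) := mul_le_mul_of_nonneg_right hδ1 (by positivity)
            _ ≤ _ := by linarith
        rw [abs_le]; constructor <;> linarith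
      refine b1.trans ?_
      have hl1 : (1 : ℝ) ≤ l := by exact_mod_cast (by omega : 1 ≤ l)
      have hlp : (0 : ℝ) < l := by linarith
      have b2 : (N : ℝ) / l ^ 2 ≤ V P * (N / q) := by
        calc (N : ℝ) / l ^ 2 = 1 / l * (N / l) := by field_simp
          _ ≤ V P * (N / q) := by
            apply mul_le_mul hVl _ (by positivity) hV0.le
            exact div_le_div_of_nonneg_left (Nat.cast_nonneg _) hq0 (by exact_mod_cast hql)
      -- `M * l ^ 4 ≤ N`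
      have b3 : M * l ^ 4 ≤ N := by
        have h1 : (l ^ 4) ^ 2 ≤ N := by
          calc (l ^ 4) ^ 2 = l ^ 8 := by ring
            _ ≤ l ^ (4 * W2) := Nat.pow_le_pow_right (by omega) (by omega)
            _ ≤ N := hlN
        have h2 : (M * l ^ 4) ^ 2 ≤ N ^ 2 := by
          calc (M * l ^ 4) ^ 2 = M ^ 2 * (l ^ 4) ^ 2 := by ring
            _ ≤ N * N := Nat.mul_le_mul h.le h1
            _ = N ^ 2 := by ring
        exact le_of_pow_le_pow_left₀ (by norm_num) (Nat.zero_le _) h2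
      have b4 : (M : ℝ) * l ^ 4 ≤ N := by exact_mod_cast b3
      have b5 : 4 ≤ ε * l := by
        have : (E : ℝ) ≤ l := by exact_mod_cast (by omega : E ≤ l)
        have h4 : 4 / ε ≤ l := hE.trans this
        rw [div_le_iff₀ hε] at h4; linarith
      have b6 : (M : ℝ) ≤ ε / 2 * (N / l ^ 2) := by
        have h5 : (M : ℝ) * l ^ 2 * (l ^ 2) ≤ N := by
          calc (M : ℝ) * l ^ 2 * (l ^ 2) = M * l ^ 4 := by ring
            _ ≤ (N : ℝ) := b4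
        have h6 : (M : ℝ) * l ^ 2 ≤ ε / 2 * N := by
          have h7 : 2 ≤ ε * l ^ 2 := by nlinarith
          have h8 : (0 : ℝ) ≤ M * l ^ 2 := by positivity
          nlinarith
        rw [mul_div_assoc', le_div_iff₀ (by positivity)]
        exact h6
      calc (M : ℝ) ≤ ε / 2 * (N / l ^ 2) := b6
        _ ≤ ε / 2 * (V P * (N / q)) := mul_le_mul_of_nonneg_left b2 (by positivity)
  have a3 : 0 ≤ ε * (V P * ((N : ℝ) / q)) := mul_nonneg hε.le hEN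
  linarith

theorem phi_univ {d : ℤ} (hD : 1 ≤ d.natAbs) {s : ℤ} (hs : s = 1 ∨ s = -1) :
    IsPhi d s Set.univ (fun _ => 1) := by
  refine ⟨fun _ => ⟨zero_le_one, le_rfl⟩, fun _ _ _ => rfl, fun c => ?_⟩
  have t1 : Tendsto (fun N : ℕ => (cA s Set.univ d.natAbs c N : ℝ) / N - 1 / d.natAbs) atTop (𝓝 0) := by
    apply squeeze_zero_norm' (a := fun N : ℕ => 1 / (N : ℝ)) _ tendsto_one_div_atTop_nhds_zero_nat
    filter_upwards [eventually_ge_atTop 1] with N hN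
    have hN0 : (0 : ℝ) < N := by exact_mod_cast hN
    have h1 := cA_univ hs hD c N
    have e : (cA s Set.univ d.natAbs c N : ℝ) / N - 1 / d.natAbs =
        ((cA s Set.univ d.natAbs c N : ℝ) - N / d.natAbs) / N := by
      have : (d.natAbs : ℝ) ≠ 0 := by exact_mod_cast (by omega : d.natAbs ≠ 0)
      field_simp
    rw [e, Real.norm_eq_abs, abs_div, abs_of_pos hN0]
    exact div_le_div_of_nonneg_right h1 hN0.le
  have := t1.add_const (1 / (d.natAbs : ℝ))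
  simpa using this

/-- The integers `n ≡ a` mod `q` of sign `s` with `M < |n| ≤ N` that no element of `P` divides. -/
def Sifted (s : ℤ) (M N q : ℕ) (a : ℤ) (P : Set ℕ) : Set ℤ :=
  {n : ℤ | (M : ℤ) < s * n ∧ s * n ≤ N ∧ n ≡ a [ZMOD q] ∧ ∀ p ∈ P, ¬ (p : ℤ) ∣ n}

theorem sifted_inter (s : ℤ) (S : Set ℤ) (M N q : ℕ) (a : ℤ) (P : Set ℕ) :
    S ∩ Sifted s M N q a P =
      {n : ℤ | n ∈ S ∧ (M : ℤ) < s * n ∧ s * n ≤ N ∧ n ≡ a [ZMOD q] ∧ ∀ p ∈ P, ¬ (p : ℤ) ∣ n} := rfl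

theorem sifted_univ (s : ℤ) (M N q : ℕ) (a : ℤ) (P : Set ℕ) :
    Sifted s M N q a P = Set.univ ∩ Sifted s M N q a P := (Set.univ_inter _).symm

/-- the main estimate for moduli that are multiples of `d` -/
theorem main_finD {d : ℤ} (hd6 : d % 6 = 1 ∨ d % 6 = 5) {s : ℤ} (hs : s = 1 ∨ s = -1) {ε : ℝ} (hε : 0 < ε)
    (hε1 : ε ≤ 1) : ∃ θ : ℝ, 0 < θ ∧
    ∃ N₀ : ℕ, 2 ≤ N₀ ∧ ∀ S : Set ℤ, Inv d S → ∀ φ : ℤ → ℝ, IsPhi d s S φ → ∀ N : ℕ, N₀ ≤ N → ∀ M : ℕ, M ≤ N →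
    ∀ q : ℕ, 1 ≤ q → (q : ℝ) ≤ (N : ℝ) ^ θ → d.natAbs ∣ q → ∀ P : Finset ℕ,
    (∀ p ∈ P, p.Prime ∧ (p : ℝ) ≤ (N : ℝ) ^ θ ∧ ¬ p ∣ q) → ∀ a : ℤ,
    |((S ∩ Sifted s M N q a P).ncard : ℝ) - φ a * (V P * ((N - M) / q))| ≤ ε * (V P * (N / q)) ∧
    |((Sifted s M N q a P).ncard : ℝ) - V P * ((N - M) / q)| ≤ ε * (V P * (N / q)) ∧
    |((Sifted s 0 N q a P).ncard : ℝ) - V P * (N / q)| ≤ ε * (V P * (N / q)) ∧
    0 < V P * ((N : ℝ) / q) := by
  obtain ⟨θ, hθ, N0, hN0, H⟩ := intervalD hd6 hs hε hε1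
  refine ⟨θ, hθ, N0, hN0, fun S hS φ hφ N hN M hMN q hq hqN hDq P hP a => ?_⟩
  have hinvu : Inv d (Set.univ : Set ℤ) := fun x => by simp
  have hphu := phi_univ (d := d) (by omega) hs
  have h1 := H S hS φ hφ N hN M hMN q hq hqN hDq P hP (s * a)
  have h2 := H Set.univ hinvu _ hphu N hN M hMN q hq hqN hDq P hP (s * a)
  have h3 := H Set.univ hinvu _ hphu N hN 0 (Nat.zero_le _) q hq hqN hDq P hP (s * a)
  rw [← ncard_eq hs S hMN, s_mul hs] at h1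
  rw [← ncard_eq hs Set.univ hMN] at h2
  rw [← ncard_eq hs Set.univ (Nat.zero_le _)] at h3
  have hV := V_pos fun p hp => (hP p hp).1
  have hN' : (0 : ℝ) < N := by exact_mod_cast (by omega : 0 < N)
  have hq' : (0 : ℝ) < q := by exact_mod_cast hq
  refine ⟨h1, ?_, ?_, by positivity⟩
  · rw [one_mul] at h2
    rw [sifted_univ]
    exact h2
  · have e0 : (N : ℝ) - ((0 : ℕ) : ℝ) = N := by simp
    rw [one_mul, e0] at h3
    rw [sifted_univ]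
    exact h3

theorem sifted_finite {s : ℤ} (hs : s = 1 ∨ s = -1) (M N q : ℕ) (a : ℤ) (P : Set ℕ) :
    (Sifted s M N q a P).Finite := by
  apply (Set.finite_Icc (-(N : ℤ)) N).subset
  rintro n ⟨h1, h2, -⟩
  rw [Set.mem_Icc]
  rcases hs with rfl | rfl <;> constructor <;> omega

/-- the sifted progression in a class modulo `D`, if it is not empty, is a sifted progression -/
theorem sifted_class (s : ℤ) (N q D : ℕ) (a c : ℤ) (P : Set ℕ) {B : ℝ} (hP : ∀ p ∈ P, p.Prime ∧ (p : ℝ) ≤ B)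
    {n0 : ℤ} (h0 : n0 ∈ Sifted s 0 N q a P) (hc : n0 ≡ c [ZMOD D]) :
    ∃ F : Finset ℕ, (∀ p ∈ F, p.Prime ∧ (p : ℝ) ≤ B ∧ ¬ p ∣ Nat.lcm q D) ∧
      ∀ M : ℕ, {n | n ∈ Sifted s M N q a P ∧ n ≡ c [ZMOD D]} = Sifted s M N (Nat.lcm q D) n0 F := by
  classical
  have hfin : {p : ℕ | p ∈ P ∧ ¬ p ∣ Nat.lcm q D}.Finite := by
    apply (Set.finite_Iic ⌊B⌋₊).subset
    intro p hp
    exact Nat.le_floor (hP p hp.1).2
  have hlcm : ∀ n : ℤ, n ≡ n0 [ZMOD (Nat.lcm q D : ℕ)] ↔ (n ≡ a [ZMOD q] ∧ n ≡ c [ZMOD D]) := by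
    intro n
    rw [Int.modEq_iff_dvd]
    have e1 : (n ≡ a [ZMOD q] ∧ n ≡ c [ZMOD D]) ↔ ((q : ℤ) ∣ n0 - n ∧ (D : ℤ) ∣ n0 - n) := by
      rw [← Int.modEq_iff_dvd, ← Int.modEq_iff_dvd]
      constructor
      · rintro ⟨g1, g2⟩; exact ⟨g1.trans h0.2.2.1.symm, g2.trans hc.symm⟩
      · rintro ⟨g1, g2⟩; exact ⟨g1.trans h0.2.2.1, g2.trans hc⟩
    rw [e1]
    rw [Int.natCast_dvd, Int.natCast_dvd, Int.natCast_dvd, Nat.lcm_dvd_iff]
  refine ⟨hfin.toFinset, fun p hp => ?_, fun M => ?_⟩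
  · rw [Set.Finite.mem_toFinset] at hp
    exact ⟨(hP p hp.1).1, (hP p hp.1).2, hp.2⟩
  · ext n
    unfold Sifted
    simp only [Set.mem_ofPred_eq, Finset.mem_coe, Set.Finite.mem_toFinset]
    rw [hlcm]
    constructor
    · rintro ⟨⟨h1, h2, h3, h4⟩, h5⟩
      exact ⟨h1, h2, ⟨h3, h5⟩, fun p hp => h4 p hp.1⟩
    · rintro ⟨h1, h2, h3, h4⟩
      refine ⟨⟨h1, h2, h3.1, fun p hp hd => ?_⟩, h3.2⟩
      by_cases hq : p ∣ Nat.lcm q D
      · apply h0.2.2.2 p hp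
        have h5 : (p : ℤ) ∣ ((Nat.lcm q D : ℕ) : ℤ) := by exact_mod_cast hq
        have h6 : (p : ℤ) ∣ n0 - n := h5.trans ((hlcm n).2 h3).dvd
        have h7 := dvd_add h6 hd
        rwa [sub_add_cancel] at h7
      · exact h4 p ⟨hp, hq⟩ hd

end Pool.Agent.Helper82K9.GK
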