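import Mathlib
import Pool.Agent.Helper82K9.GK.SP4

/-! Invariant sets of the `3x+d` maps in sifted progressions to all moduli. -/

set_option autoImplicit false

namespace Pool.Agent.Helper82K9.GK

open Finset Filter Topology Pool.Agent.H499R2.CO Pool.Agent.H499R2.ND Pool.Agent.W41 Pool.Agent.W36.FD
open Pool.Agent.Results.MP_7f88e4_nt.ResidueClasses (Rel)

/-- a small power of `N` exceeds `D` -/
theorem pow_big (D : ℕ) {θ : ℝ} (hθ : 0 < θ) : ∃ N1 : ℕ, ∀ N : ℕ, N1 ≤ N → (D : ℝ) ≤ (N : ℝ) ^ θ := by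
  have h1 : Tendsto (fun N : ℕ => (N : ℝ) ^ θ) atTop atTop :=
    (tendsto_rpow_atTop hθ).comp tendsto_natCast_atTop_atTop
  obtain ⟨N1, h⟩ := Filter.eventually_atTop.1 (h1.eventually (eventually_ge_atTop (D : ℝ)))
  exact ⟨N1, h⟩

/-- one class modulo `d` -/
theorem per_class {d : ℤ} (hd6 : d % 6 = 1 ∨ d % 6 = 5) {s : ℤ} (hs : s = 1 ∨ s = -1) {ε : ℝ} (hε : 0 < ε) :
    ∃ θ : ℝ, 0 < θ ∧ ∃ N₀ : ℕ, 2 ≤ N₀ ∧ ∀ S : Set ℤ, Inv d S → ∀ φ : ℤ → ℝ, IsPhi d s S φ → ∀ N : ℕ, N₀ ≤ N →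
    ∀ M : ℕ, M ≤ N → ∀ q : ℕ, 1 ≤ q → (q : ℝ) ≤ (N : ℝ) ^ θ → ∀ P : Set ℕ,
    (∀ p ∈ P, p.Prime ∧ (p : ℝ) ≤ (N : ℝ) ^ θ) → ∀ a c : ℤ,
    |(({n | n ∈ S ∧ n ∈ Sifted s M N q a P ∧ n ≡ c [ZMOD (d.natAbs : ℕ)]} : Set ℤ).ncard : ℝ) -
      φ c * ({n | n ∈ Sifted s M N q a P ∧ n ≡ c [ZMOD (d.natAbs : ℕ)]} : Set ℤ).ncard| ≤
      ε * ({n | n ∈ Sifted s 0 N q a P ∧ n ≡ c [ZMOD (d.natAbs : ℕ)]} : Set ℤ).ncard := by
  have hD1 : 1 ≤ d.natAbs := by omega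
  obtain ⟨θ, hθ, N0, hN0, H⟩ := main_finD hd6 hs
    (show 0 < min (ε / 4) (1 / 2) from lt_min (by positivity) (by norm_num))
    (le_trans (min_le_right _ _) (by norm_num))
  obtain ⟨N1, hN1⟩ := pow_big d.natAbs (show 0 < θ / 2 by positivity)
  refine ⟨θ / 2, by positivity, N0 + N1, by omega, fun S hS φ hφ N hN M hMN q hq hqN P hP a c => ?_⟩
  have hN' : (1 : ℝ) ≤ N := by exact_mod_cast (by omega : 1 ≤ N)
  have hpow : (N : ℝ) ^ (θ / 2) * (N : ℝ) ^ (θ / 2) = (N : ℝ) ^ θ := by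
    rw [← Real.rpow_add (by linarith)]; congr 1; ring
  have hle : (N : ℝ) ^ (θ / 2) ≤ (N : ℝ) ^ θ := Real.rpow_le_rpow_of_exponent_le hN' (by linarith)
  by_cases hex : ∃ n0, n0 ∈ Sifted s 0 N q a P ∧ n0 ≡ c [ZMOD (d.natAbs : ℕ)]
  · obtain ⟨n0, h0, hc⟩ := hex
    obtain ⟨F, hF, hFe⟩ := sifted_class s N q d.natAbs a c P hP h0 hc
    have hset : ({n | n ∈ S ∧ n ∈ Sifted s M N q a P ∧ n ≡ c [ZMOD (d.natAbs : ℕ)]} : Set ℤ) =
        S ∩ Sifted s M N (Nat.lcm q d.natAbs) n0 F := by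
      rw [← hFe M]; rfl
    rw [hset, hFe, hFe]
    have hq1 : (Nat.lcm q d.natAbs : ℝ) ≤ (N : ℝ) ^ θ := by
      have h1 : Nat.lcm q d.natAbs ≤ q * d.natAbs := Nat.le_of_dvd (Nat.mul_pos (by omega) (by omega))
        (Nat.lcm_dvd (Dvd.intro _ rfl) (Dvd.intro_left _ rfl))
      calc (Nat.lcm q d.natAbs : ℝ) ≤ (q : ℝ) * d.natAbs := by exact_mod_cast h1
        _ ≤ (N : ℝ) ^ (θ / 2) * (N : ℝ) ^ (θ / 2) := mul_le_mul hqN (hN1 N (by omega)) (by positivity) (by positivity)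
        _ = _ := hpow
    have hq0 : 1 ≤ Nat.lcm q d.natAbs := Nat.lcm_pos (by omega) (by omega)
    obtain ⟨h1, h2, h3, h4⟩ := H S hS φ hφ N (by omega) M hMN (Nat.lcm q d.natAbs) hq0 hq1 (Nat.dvd_lcm_right _ _)
      F (fun p hp => ⟨(hF p hp).1, (hF p hp).2.1.trans hle, (hF p hp).2.2⟩) n0
    have hφc : φ n0 = φ c := by
      apply phi_dvd hφ
      have := hc.symm.dvd
      exact Int.natAbs_dvd.1 this
    rw [hφc] at h1
    obtain ⟨hδ0, hδ1⟩ := hφ.1 c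
    obtain ⟨δ, hδ⟩ : ∃ δ : ℝ, δ = φ c := ⟨_, rfl⟩
    rw [← hδ] at h1 hδ0 hδ1 ⊢
    obtain ⟨q1, hq1e⟩ : ∃ q1 : ℕ, q1 = Nat.lcm q d.natAbs := ⟨_, rfl⟩
    rw [← hq1e] at h1 h2 h3 h4 ⊢
    set E : ℝ := V F * ((N : ℝ) / q1) with hE
    have m1 : min (ε / 4) (1 / 2) * E ≤ ε / 4 * E := mul_le_mul_of_nonneg_right (min_le_left _ _) h4.le
    have m2 : min (ε / 4) (1 / 2) * E ≤ 1 / 2 * E := mul_le_mul_of_nonneg_right (min_le_right _ _) h4.le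
    have h5 : E ≤ 2 * (Sifted s 0 N q1 n0 F).ncard := by
      have := (abs_le.1 h3).1
      linarith
    have h6 : |((S ∩ Sifted s M N q1 n0 F).ncard : ℝ) - δ * (Sifted s M N q1 n0 F).ncard| ≤ ε / 2 * E := by
      have e : ((S ∩ Sifted s M N q1 n0 F).ncard : ℝ) - δ * (Sifted s M N q1 n0 F).ncard =
          (((S ∩ Sifted s M N q1 n0 F).ncard : ℝ) - δ * (V F * ((N - M) / q1))) -
          δ * ((Sifted s M N q1 n0 F).ncard - V F * ((N - M) / q1)) := by ring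
      rw [e]
      refine (abs_sub _ _).trans ?_
      have h7 : |δ * (((Sifted s M N q1 n0 F).ncard : ℝ) - V F * ((N - M) / q1))| ≤ ε / 4 * E := by
        rw [abs_mul, abs_of_nonneg hδ0]
        calc _ ≤ 1 * |((Sifted s M N q1 n0 F).ncard : ℝ) - V F * ((N - M) / q1)| :=
              mul_le_mul_of_nonneg_right hδ1 (abs_nonneg _)
          _ ≤ _ := by rw [one_mul]; exact h2.trans m1
      linarith [h1.trans m1]
    have h8 : ε / 2 * E ≤ ε / 2 * (2 * (Sifted s 0 N q1 n0 F).ncard) := mul_le_mul_of_nonneg_left h5 (by positivity)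
    linarith
  · have hemp : ∀ M' : ℕ, ({n | n ∈ Sifted s M' N q a P ∧ n ≡ c [ZMOD (d.natAbs : ℕ)]} : Set ℤ) = ∅ := by
      intro M'
      ext n
      simp only [Set.mem_ofPred_eq, Set.mem_empty_iff_false, iff_false]
      rintro ⟨⟨h1, h2⟩, h3⟩
      exact hex ⟨n, ⟨by push_cast; omega, h2⟩, h3⟩
    have hemp2 : ({n | n ∈ S ∧ n ∈ Sifted s M N q a P ∧ n ≡ c [ZMOD (d.natAbs : ℕ)]} : Set ℤ) = ∅ := by
      ext n
      simp only [Set.mem_ofPred_eq, Set.mem_empty_iff_false, iff_false]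
      rintro ⟨-, ⟨h1, h2⟩, h3⟩
      exact hex ⟨n, ⟨by push_cast; omega, h2⟩, h3⟩
    rw [hemp, hemp, hemp2]
    simp

open Classical in
/-- all moduli -/
theorem all_mod {d : ℤ} (hd6 : d % 6 = 1 ∨ d % 6 = 5) {s : ℤ} (hs : s = 1 ∨ s = -1) {ε : ℝ} (hε : 0 < ε) :
    ∃ θ : ℝ, 0 < θ ∧ ∃ N₀ : ℕ, ∀ S : Set ℤ, Inv d S → ∀ φ : ℤ → ℝ, IsPhi d s S φ → ∀ N : ℕ, N₀ ≤ N →
    ∀ M : ℕ, M ≤ N → ∀ q : ℕ, 1 ≤ q → (q : ℝ) ≤ (N : ℝ) ^ θ → ∀ P : Set ℕ,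
    (∀ p ∈ P, p.Prime ∧ (p : ℝ) ≤ (N : ℝ) ^ θ) → ∀ a : ℤ,
    |((S ∩ Sifted s M N q a P).ncard : ℝ) - ∑ᶠ n ∈ Sifted s M N q a P, φ n| ≤
      ε * (Sifted s 0 N q a P).ncard := by
  obtain ⟨θ, hθ, N0, hN0, H⟩ := per_class hd6 hs hε
  refine ⟨θ, hθ, N0, fun S hS φ hφ N hN M hMN q hq hqN P hP a => ?_⟩
  obtain ⟨D, hDdef⟩ : ∃ D : ℕ, D = d.natAbs := ⟨_, rfl⟩
  have hD1 : 1 ≤ D := by omega
  have hD0 : (0 : ℤ) < D := by exact_mod_cast hD1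
  obtain ⟨FM, hFM⟩ : ∃ F : Finset ℤ, F = (sifted_finite hs M N q a P).toFinset := ⟨_, rfl⟩
  obtain ⟨F0, hF0⟩ : ∃ F : Finset ℤ, F = (sifted_finite hs 0 N q a P).toFinset := ⟨_, rfl⟩
  have memM : ∀ n, n ∈ FM ↔ n ∈ Sifted s M N q a P := fun n => by rw [hFM, Set.Finite.mem_toFinset]
  have mem0 : ∀ n, n ∈ F0 ↔ n ∈ Sifted s 0 N q a P := fun n => by rw [hF0, Set.Finite.mem_toFinset]
  have cls : ∀ (c : ℕ), c ∈ range D → ∀ n : ℤ, (n % D).toNat = c ↔ n ≡ c [ZMOD D] := by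
    intro c hc n
    rw [mem_range] at hc
    have h1 := Int.emod_nonneg n hD0.ne'
    have h2 : (c : ℤ) % D = c := Int.emod_eq_of_lt (by omega) (by omega)
    unfold Int.ModEq
    rw [h2]
    omega
  have e1 : ((S ∩ Sifted s M N q a P).ncard : ℝ) = ∑ n ∈ FM, (if n ∈ S then (1 : ℝ) else 0) := by
    have : S ∩ Sifted s M N q a P = ((FM.filter (fun n : ℤ => n ∈ S) : Finset ℤ) : Set ℤ) := by
      ext n
      simp only [Set.mem_inter_iff, coe_filter, memM, Set.mem_ofPred_eq]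
      tauto
    rw [this, Set.ncard_coe_finset, card_filter]
    push_cast
    rfl
  have e2 : ∑ᶠ n ∈ Sifted s M N q a P, φ n = ∑ n ∈ FM, φ n := by
    rw [finsum_mem_eq_finite_toFinset_sum _ (sifted_finite hs M N q a P), hFM]
  have e3 : ((Sifted s 0 N q a P).ncard : ℝ) = ∑ c ∈ range D, ((F0.filter (fun n : ℤ => (n % D).toNat = c)).card : ℝ) := by
    have h1 : Sifted s 0 N q a P = (F0 : Set ℤ) := by ext n; rw [mem_coe, mem0]
    rw [h1, Set.ncard_coe_finset]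
    have h2 := card_eq_sum_card_fiberwise (f := fun n : ℤ => (n % D).toNat) (s := F0) (t := range D) (by
      intro n _
      rw [coe_range, Set.mem_Iio]
      have h1 := Int.emod_nonneg n hD0.ne'
      have h2 := Int.emod_lt_of_pos n hD0
      simp only
      omega)
    rw [h2]
    push_cast
    rfl
  rw [e1, e2, ← sum_sub_distrib, e3, mul_sum]
  have e4 : ∑ n ∈ FM, ((if n ∈ S then (1 : ℝ) else 0) - φ n) =
      ∑ c ∈ range D, ∑ n ∈ FM.filter (fun n : ℤ => (n % D).toNat = c), ((if n ∈ S then (1 : ℝ) else 0) - φ n) := by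
    rw [sum_fiberwise_of_maps_to]
    intro n _
    rw [mem_range]
    have h1 := Int.emod_nonneg n hD0.ne'
    have h2 := Int.emod_lt_of_pos n hD0
    omega
  rw [e4]
  refine (abs_sum_le_sum_abs _ _).trans (sum_le_sum fun c hc => ?_)
  have h1 := H S hS φ hφ N hN M hMN q hq hqN P hP a (c : ℤ)
  rw [← hDdef] at h1
  have s1 : ({n | n ∈ S ∧ n ∈ Sifted s M N q a P ∧ n ≡ c [ZMOD D]} : Set ℤ) =
      ((FM.filter (fun n : ℤ => (n % D).toNat = c)).filter (fun n : ℤ => n ∈ S) : Finset ℤ) := by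
    ext n
    simp only [coe_filter, mem_filter, memM, Set.mem_ofPred_eq, cls c hc]
    tauto
  have s2 : ({n | n ∈ Sifted s M N q a P ∧ n ≡ c [ZMOD D]} : Set ℤ) =
      (FM.filter (fun n : ℤ => (n % D).toNat = c) : Finset ℤ) := by
    ext n
    simp only [coe_filter, memM, Set.mem_ofPred_eq, cls c hc]
  have s3 : ({n | n ∈ Sifted s 0 N q a P ∧ n ≡ c [ZMOD D]} : Set ℤ) =
      (F0.filter (fun n : ℤ => (n % D).toNat = c) : Finset ℤ) := by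
    ext n
    simp only [coe_filter, mem0, Set.mem_ofPred_eq, cls c hc]
  rw [s1, s2, s3, Set.ncard_coe_finset, Set.ncard_coe_finset, Set.ncard_coe_finset] at h1
  have e5 : ∑ n ∈ FM.filter (fun n : ℤ => (n % D).toNat = c), ((if n ∈ S then (1 : ℝ) else 0) - φ n) =
      (((FM.filter (fun n : ℤ => (n % D).toNat = c)).filter (fun n : ℤ => n ∈ S)).card : ℝ) -
        φ c * ((FM.filter (fun n : ℤ => (n % D).toNat = c)).card : ℝ) := by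
    rw [sum_sub_distrib]
    congr 1
    · rw [card_filter]; push_cast; rfl
    · have : ∀ n ∈ FM.filter (fun n : ℤ => (n % D).toNat = c), φ n = φ c := by
        intro n hn
        rw [mem_filter, cls c hc] at hn
        apply phi_dvd hφ
        have := hn.2.symm.dvd
        rw [hDdef] at this
        exact Int.natAbs_dvd.1 this
      rw [sum_congr rfl this, sum_const, nsmul_eq_mul, mul_comm]
  rw [e5]
  exact h1

/-- existence of elements -/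
theorem exists_eltD {d : ℤ} (hd6 : d % 6 = 1 ∨ d % 6 = 5) {s : ℤ} (hs : s = 1 ∨ s = -1) {S : Set ℤ} (hS : Inv d S)
    {x0 : ℤ} (hx : x0 ∈ S) (hx0 : 0 < s * x0) (hx3 : ¬ (3 : ℤ) ∣ x0) :
    ∃ θ : ℝ, 0 < θ ∧ ∃ N₀ : ℕ, 2 ≤ N₀ ∧ ∀ N : ℕ, N₀ ≤ N → ∀ M : ℕ, 2 * M ≤ N →
    ∀ q : ℕ, 1 ≤ q → (q : ℝ) ≤ (N : ℝ) ^ θ → ∀ P : Finset ℕ,
    (∀ p ∈ P, p.Prime ∧ (p : ℝ) ≤ (N : ℝ) ^ θ ∧ ¬ p ∣ q ∧ ¬ p ∣ d.natAbs) → ∀ a : ℤ,
    Rel (Int.gcd q d) a x0 → ∃ n ∈ S, n ∈ Sifted s M N q a P ∧ Rel d n x0 := by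
  have hD1 : 1 ≤ d.natAbs := by omega
  obtain ⟨φ, hφ, hpos⟩ := exists_phi hd6 hs hS
  have hφ0 : 0 < φ x0 := hpos x0 x0 hx hx0 hx3 ⟨0, 0, by simp⟩
  obtain ⟨θ, hθ, N0, hN0, H⟩ := main_finD hd6 hs (show 0 < min (φ x0 / 4) 1 from lt_min (by positivity) one_pos)
    (min_le_right _ _)
  obtain ⟨N1, hN1⟩ := pow_big d.natAbs (show 0 < θ / 2 by positivity)
  refine ⟨θ / 2, by positivity, N0 + N1, by omega, fun N hN M hMN q hq hqN P hP a ha => ?_⟩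
  have hN' : (1 : ℝ) ≤ N := by exact_mod_cast (by omega : 1 ≤ N)
  have hpow : (N : ℝ) ^ (θ / 2) * (N : ℝ) ^ (θ / 2) = (N : ℝ) ^ θ := by
    rw [← Real.rpow_add (by linarith)]; congr 1; ring
  have hle : (N : ℝ) ^ (θ / 2) ≤ (N : ℝ) ^ θ := Real.rpow_le_rpow_of_exponent_le hN' (by linarith)
  -- the class modulo the least common multiple
  obtain ⟨i, j, hij⟩ := ha
  obtain ⟨n0, h01, h02⟩ : ∃ n0 : ℤ, n0 ≡ a [ZMOD q] ∧ d ∣ n0 - 2 ^ i * 3 ^ j * x0 := by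
    obtain ⟨c, hc⟩ := hij.dvd
    have hb := Int.gcd_eq_gcd_ab (q : ℤ) d
    refine ⟨a + q * (Int.gcdA q d * c), ?_, ?_⟩
    · exact (Int.modEq_iff_dvd.2 ⟨-(Int.gcdA q d * c), by ring⟩)
    · refine ⟨-(Int.gcdB q d * c), ?_⟩
      have h1 : a = 2 ^ i * 3 ^ j * x0 - (Int.gcd (q : ℤ) d : ℤ) * c := by linarith
      rw [h1, hb]; ring
  have hq1 : (Nat.lcm q d.natAbs : ℝ) ≤ (N : ℝ) ^ θ := by
    have h1 : Nat.lcm q d.natAbs ≤ q * d.natAbs := Nat.le_of_dvd (Nat.mul_pos (by omega) (by omega))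
      (Nat.lcm_dvd (Dvd.intro _ rfl) (Dvd.intro_left _ rfl))
    calc (Nat.lcm q d.natAbs : ℝ) ≤ (q : ℝ) * d.natAbs := by exact_mod_cast h1
      _ ≤ (N : ℝ) ^ (θ / 2) * (N : ℝ) ^ (θ / 2) := mul_le_mul hqN (hN1 N (by omega)) (by positivity) (by positivity)
      _ = _ := hpow
  have hq0 : 1 ≤ Nat.lcm q d.natAbs := Nat.lcm_pos (by omega) (by omega)
  obtain ⟨h1, -, -, h4⟩ := H S hS φ hφ N (by omega) M (by omega) (Nat.lcm q d.natAbs) hq0 hq1 (Nat.dvd_lcm_right _ _)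
    P (fun p hp => ⟨(hP p hp).1, (hP p hp).2.1.trans hle, fun hd => by
      have h1 : p ∣ q * d.natAbs := hd.trans (Nat.lcm_dvd (Dvd.intro _ rfl) (Dvd.intro_left _ rfl))
      rcases (hP p hp).1.dvd_mul.1 h1 with h | h
      · exact (hP p hp).2.2.1 h
      · exact (hP p hp).2.2.2 h⟩) n0
  have hφn : φ n0 = φ x0 := by
    rw [phi_dvd hφ h02, phi_mul hφ]
  rw [hφn] at h1
  obtain ⟨q1, hq1e⟩ : ∃ q1 : ℕ, q1 = Nat.lcm q d.natAbs := ⟨_, rfl⟩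
  have hqq1 : q ∣ q1 := by rw [hq1e]; exact Nat.dvd_lcm_left _ _
  have hDq1 : d.natAbs ∣ q1 := by rw [hq1e]; exact Nat.dvd_lcm_right _ _
  rw [← hq1e] at h1 h4 hq0
  have hM : 2 * (M : ℝ) ≤ N := by exact_mod_cast hMN
  have hq' : (0 : ℝ) < q1 := by exact_mod_cast hq0
  have hV := V_pos fun p hp => (hP p hp).1
  have h5 : V P * ((N : ℝ) / q1) / 2 ≤ V P * ((N - M) / q1) := by
    rw [mul_div_assoc]
    apply mul_le_mul_of_nonneg_left _ hV.le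
    rw [div_div, mul_comm, ← div_div]
    apply div_le_div_of_nonneg_right _ hq'.le
    linarith
  have h6 : min (φ x0 / 4) 1 * (V P * ((N : ℝ) / q1)) ≤ φ x0 / 4 * (V P * (N / q1)) :=
    mul_le_mul_of_nonneg_right (min_le_left _ _) h4.le
  have h7 : 0 < ((S ∩ Sifted s M N q1 n0 P).ncard : ℝ) := by
    have h8 := (abs_le.1 h1).1
    have h9 := mul_le_mul_of_nonneg_left h5 hφ0.le
    have h10 : 0 < φ x0 * (V P * ((N : ℝ) / q1)) := mul_pos hφ0 h4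
    linarith
  have h11 : (S ∩ Sifted s M N q1 n0 P).Nonempty := by
    apply Set.nonempty_of_ncard_ne_zero
    exact_mod_cast h7.ne'
  obtain ⟨n, hnS, hn1, hn2, hn3, hn4⟩ := h11
  have hqz : (q : ℤ) ∣ (q1 : ℤ) := by exact_mod_cast hqq1
  have hDz : d ∣ (q1 : ℤ) := (Int.dvd_natAbs_self).trans (by exact_mod_cast hDq1)
  refine ⟨n, hnS, ⟨hn1, hn2, ?_, hn4⟩, i, j, ?_⟩
  · have h12 : n ≡ n0 [ZMOD q] := hn3.of_dvd hqz
    exact h12.trans h01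
  · have h12 : n ≡ n0 [ZMOD d] := hn3.of_dvd hDz
    exact h12.trans (Int.modEq_iff_dvd.2 h02).symm

end Pool.Agent.Helper82K9.GK
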