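import Mathlib
import Pool.Agent.Helper82K9.GK.SP5

/-! Invariant sets of the `3x+d` maps in sifted progressions to moduli prime to `d`. -/

set_option autoImplicit false

namespace Pool.Agent.Helper82K9.GK

open Finset Filter Topology Pool.Agent.H499R2.CO Pool.Agent.H499R2.ND Pool.Agent.W41 Pool.Agent.W36.FD
open Pool.Agent.Results.MP_7f88e4_nt.ResidueClasses (Rel)

open Classical in
theorem sum_cls {s : ℤ} (hs : s = 1 ∨ s = -1) (M N q : ℕ) (a : ℤ) (P : Set ℕ) {D : ℕ} (hD : 1 ≤ D) (g : ℤ → ℝ)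
    (hg : ∀ x y : ℤ, (D : ℤ) ∣ x - y → g x = g y) :
    ∑ᶠ n ∈ Sifted s M N q a P, g n =
      ∑ c ∈ range D, g (c : ℤ) * (({n | n ∈ Sifted s M N q a P ∧ n ≡ (c : ℤ) [ZMOD D]} : Set ℤ).ncard : ℝ) := by
  have hD0 : (0 : ℤ) < D := by exact_mod_cast hD
  obtain ⟨FM, hFM⟩ : ∃ F : Finset ℤ, F = (sifted_finite hs M N q a P).toFinset := ⟨_, rfl⟩
  have memM : ∀ n, n ∈ FM ↔ n ∈ Sifted s M N q a P := fun n => by rw [hFM, Set.Finite.mem_toFinset]
  have cls : ∀ (c : ℕ), c ∈ range D → ∀ n : ℤ, (n % D).toNat = c ↔ n ≡ c [ZMOD D] := by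
    intro c hc n
    rw [mem_range] at hc
    have h1 := Int.emod_nonneg n hD0.ne'
    have h2 : (c : ℤ) % D = c := Int.emod_eq_of_lt (by omega) (by omega)
    unfold Int.ModEq
    rw [h2]
    omega
  rw [finsum_mem_eq_finite_toFinset_sum _ (sifted_finite hs M N q a P), ← hFM]
  rw [← sum_fiberwise_of_maps_to (s := FM) (t := range D) (g := fun n : ℤ => (n % D).toNat) (by
    intro n _
    rw [mem_range]
    have h1 := Int.emod_nonneg n hD0.ne'
    have h2 := Int.emod_lt_of_pos n hD0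
    omega)]
  apply sum_congr rfl
  intro c hc
  have s2 : ({n | n ∈ Sifted s M N q a P ∧ n ≡ c [ZMOD D]} : Set ℤ) =
      (FM.filter (fun n : ℤ => (n % D).toNat = c) : Finset ℤ) := by
    ext n
    simp only [coe_filter, memM, Set.mem_ofPred_eq, cls c hc]
  rw [s2, Set.ncard_coe_finset]
  have : ∀ n ∈ FM.filter (fun n : ℤ => (n % D).toNat = c), g n = g c := by
    intro n hn
    rw [mem_filter, cls c hc] at hn
    exact hg _ _ hn.2.symm.dvd
  rw [sum_congr rfl this, sum_const, nsmul_eq_mul, mul_comm]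

theorem ncard_cls {s : ℤ} (hs : s = 1 ∨ s = -1) (M N q : ℕ) (a : ℤ) (P : Set ℕ) {D : ℕ} (hD : 1 ≤ D) :
    ((Sifted s M N q a P).ncard : ℝ) =
      ∑ c ∈ range D, (({n | n ∈ Sifted s M N q a P ∧ n ≡ (c : ℤ) [ZMOD D]} : Set ℤ).ncard : ℝ) := by
  have h := sum_cls hs M N q a P hD (fun _ => 1) (fun _ _ _ => rfl)
  simp only [one_mul] at h
  rw [← h, finsum_mem_eq_finite_toFinset_sum _ (sifted_finite hs M N q a P), sum_const, nsmul_eq_mul, mul_one,
    Set.ncard_eq_toFinset_card _ (sifted_finite hs M N q a P)]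

/-- moduli prime to `d` -/
theorem coprime_mod {d : ℤ} (hd6 : d % 6 = 1 ∨ d % 6 = 5) {s : ℤ} (hs : s = 1 ∨ s = -1) {ε : ℝ} (hε : 0 < ε) :
    ∃ θ : ℝ, 0 < θ ∧ ∃ N₀ : ℕ, ∀ S : Set ℤ, Inv d S → ∀ δ : ℝ, HD s S δ → ∀ N : ℕ, N₀ ≤ N →
    ∀ M : ℕ, M ≤ N → ∀ q : ℕ, 1 ≤ q → (q : ℝ) ≤ (N : ℝ) ^ θ → Nat.Coprime q d.natAbs → ∀ P : Set ℕ,
    (∀ p ∈ P, p.Prime ∧ (p : ℝ) ≤ (N : ℝ) ^ θ ∧ ¬ p ∣ d.natAbs) → ∀ a : ℤ,
    |((S ∩ Sifted s M N q a P).ncard : ℝ) - δ * (Sifted s M N q a P).ncard| ≤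
      ε * (Sifted s 0 N q a P).ncard := by
  classical
  obtain ⟨D, hDdef⟩ : ∃ D : ℕ, D = d.natAbs := ⟨_, rfl⟩
  have hD1 : 1 ≤ D := by omega
  have hD0 : (0 : ℤ) < D := by exact_mod_cast hD1
  have hDR : (1 : ℝ) ≤ D := by exact_mod_cast hD1
  obtain ⟨θ1, hθ1, N1, H1⟩ := all_mod hd6 hs (show 0 < ε / 2 by positivity)
  obtain ⟨θ2, hθ2, N2, hN2, H2⟩ := main_finD hd6 hs
    (show 0 < min (ε / 4) (1 / 2) from lt_min (by positivity) (by norm_num))
    (le_trans (min_le_right _ _) (by norm_num))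
  obtain ⟨N3, hN3⟩ := pow_big D (show 0 < θ2 / 2 by positivity)
  refine ⟨min θ1 (θ2 / 2), lt_min hθ1 (by positivity), N1 + N2 + N3, fun S hS δ hδ N hN M hMN q hq hqN hco P hP a => ?_⟩
  have hN' : (1 : ℝ) ≤ N := by exact_mod_cast (by omega : 1 ≤ N)
  have hpow : (N : ℝ) ^ (θ2 / 2) * (N : ℝ) ^ (θ2 / 2) = (N : ℝ) ^ θ2 := by
    rw [← Real.rpow_add (by linarith)]; congr 1; ring
  have hle : (N : ℝ) ^ (θ2 / 2) ≤ (N : ℝ) ^ θ2 := Real.rpow_le_rpow_of_exponent_le hN' (by linarith)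
  have hm1 : (N : ℝ) ^ (min θ1 (θ2 / 2)) ≤ (N : ℝ) ^ θ1 := Real.rpow_le_rpow_of_exponent_le hN' (min_le_left _ _)
  have hm2 : (N : ℝ) ^ (min θ1 (θ2 / 2)) ≤ (N : ℝ) ^ (θ2 / 2) := Real.rpow_le_rpow_of_exponent_le hN' (min_le_right _ _)
  by_cases hex : ∃ p ∈ P, p ∣ q ∧ (p : ℤ) ∣ a
  · obtain ⟨p, hp, h1, h2⟩ := hex
    have hemp : ∀ M, Sifted s M N q a P = ∅ := by
      intro M
      ext n
      simp only [Set.mem_empty_iff_false, iff_false]
      rintro ⟨-, -, h3, h4⟩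
      apply h4 p hp
      have h5 : (p : ℤ) ∣ (q : ℤ) := by exact_mod_cast h1
      have h6 : (p : ℤ) ∣ a - n := h5.trans h3.dvd
      have h7 := dvd_sub h2 h6
      rwa [sub_sub_cancel] at h7
    rw [hemp, hemp]
    simp
  · -- the local densities
    obtain ⟨φ, hφ, -⟩ := exists_phi hd6 hs hS
    have hsum : ∑ c ∈ range D, φ (c : ℤ) = δ * D := by
      have h1 := DD_sum hD1 (by rw [hDdef]; exact hφ.2.2) hs hδ
      rw [← hDdef, ← sum_div] at h1
      rw [← h1]; field_simp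
    have a1 := H1 S hS φ hφ N (by omega) M hMN q hq (hqN.trans hm1) P (fun p hp => ⟨(hP p hp).1, (hP p hp).2.1.trans hm1⟩) a
    have hper : ∀ x y : ℤ, (D : ℤ) ∣ x - y → φ x = φ y := by
      intro x y h
      apply phi_dvd hφ
      rw [hDdef] at h
      exact Int.natAbs_dvd.1 h
    rw [sum_cls hs M N q a P hD1 φ hper] at a1
    -- the sizes of the classes
    set F : Finset ℕ := (Finset.range (⌊(N : ℝ) ^ θ2⌋₊ + 1)).filter (fun p => p ∈ P ∧ ¬ p ∣ q) with hF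
    have hFP : ∀ p, p ∈ F ↔ p ∈ P ∧ ¬ p ∣ q := by
      intro p
      rw [hF, mem_filter, mem_range]
      constructor
      · exact fun h => h.2
      · intro h
        refine ⟨Nat.lt_succ_of_le (Nat.le_floor ?_), h⟩
        exact ((hP p h.1).2.1.trans hm2).trans hle
    have hclass : ∀ c : ℕ, ∃ nc : ℤ, ∀ M' : ℕ, ({n | n ∈ Sifted s M' N q a P ∧ n ≡ (c : ℤ) [ZMOD D]} : Set ℤ) =
        Sifted s M' N (Nat.lcm q D) nc F := by
      intro c
      obtain ⟨nc, h1, h2⟩ : ∃ nc : ℤ, nc ≡ a [ZMOD q] ∧ nc ≡ (c : ℤ) [ZMOD D] := by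
        have hb := Int.gcd_eq_gcd_ab (q : ℤ) D
        have hg : Int.gcd (q : ℤ) D = 1 := by
          rw [Int.gcd_natCast_natCast]
          rw [hDdef]; exact hco
        rw [hg] at hb
        refine ⟨a + q * (Int.gcdA q D * (c - a)), ?_, ?_⟩
        · exact (Int.modEq_iff_dvd.2 ⟨-(Int.gcdA q D * (c - a)), by ring⟩)
        · apply Int.modEq_iff_dvd.2
          refine ⟨Int.gcdB q D * (c - a), ?_⟩
          push_cast at hb
          linear_combination ((c : ℤ) - a) * hb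
      refine ⟨nc, fun M' => ?_⟩
      ext n
      have hlcm : n ≡ nc [ZMOD (Nat.lcm q D : ℕ)] ↔ (n ≡ a [ZMOD q] ∧ n ≡ c [ZMOD D]) := by
        rw [Int.modEq_iff_dvd]
        have e1 : (n ≡ a [ZMOD q] ∧ n ≡ c [ZMOD D]) ↔ ((q : ℤ) ∣ nc - n ∧ (D : ℤ) ∣ nc - n) := by
          rw [← Int.modEq_iff_dvd, ← Int.modEq_iff_dvd]
          constructor
          · rintro ⟨g1, g2⟩; exact ⟨g1.trans h1.symm, g2.trans h2.symm⟩
          · rintro ⟨g1, g2⟩; exact ⟨g1.trans h1, g2.trans h2⟩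
        rw [e1, Int.natCast_dvd, Int.natCast_dvd, Int.natCast_dvd, Nat.lcm_dvd_iff]
      unfold Sifted
      simp only [Set.mem_ofPred_eq, mem_coe, hFP]
      rw [hlcm]
      constructor
      · rintro ⟨⟨h1, h2, h3, h4⟩, h5⟩
        exact ⟨h1, h2, ⟨h3, h5⟩, fun p hp => h4 p hp.1⟩
      · rintro ⟨h1, h2, h3, h4⟩
        refine ⟨⟨h1, h2, h3.1, fun p hp hd => ?_⟩, h3.2⟩
        by_cases hpq : p ∣ q
        · apply hex
          refine ⟨p, hp, hpq, ?_⟩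
          have h5 : (p : ℤ) ∣ (q : ℤ) := by exact_mod_cast hpq
          have h6 : (p : ℤ) ∣ a - n := h5.trans h3.1.dvd
          have h7 := dvd_add h6 hd
          rwa [sub_add_cancel] at h7
        · exact h4 p ⟨hp, hpq⟩ hd
    choose nc hnc using hclass
    have hq1 : (Nat.lcm q D : ℝ) ≤ (N : ℝ) ^ θ2 := by
      have h1 : Nat.lcm q D ≤ q * D := Nat.le_of_dvd (Nat.mul_pos (by omega) (by omega))
        (Nat.lcm_dvd (Dvd.intro _ rfl) (Dvd.intro_left _ rfl))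
      calc (Nat.lcm q D : ℝ) ≤ (q : ℝ) * D := by exact_mod_cast h1
        _ ≤ (N : ℝ) ^ (θ2 / 2) * (N : ℝ) ^ (θ2 / 2) :=
          mul_le_mul (hqN.trans hm2) (hN3 N (by omega)) (by positivity) (by positivity)
        _ = _ := hpow
    have hq0 : 1 ≤ Nat.lcm q D := Nat.lcm_pos (by omega) (by omega)
    have hFprop : ∀ p ∈ F, p.Prime ∧ (p : ℝ) ≤ (N : ℝ) ^ θ2 ∧ ¬ p ∣ Nat.lcm q D := by
      intro p hp
      rw [hFP] at hp
      refine ⟨(hP p hp.1).1, ((hP p hp.1).2.1.trans hm2).trans hle, fun hd => ?_⟩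
      have h1 : p ∣ q * D := hd.trans (Nat.lcm_dvd (Dvd.intro _ rfl) (Dvd.intro_left _ rfl))
      rcases (hP p hp.1).1.dvd_mul.1 h1 with h | h
      · exact hp.2 h
      · rw [hDdef] at h; exact (hP p hp.1).2.2 h
    have hDl : d.natAbs ∣ Nat.lcm q D := by rw [← hDdef]; exact Nat.dvd_lcm_right _ _
    obtain ⟨q1, hq1e⟩ : ∃ q1 : ℕ, q1 = Nat.lcm q D := ⟨_, rfl⟩
    rw [← hq1e] at hq1 hq0 hFprop hDl hnc
    have hest : ∀ c : ℕ, |((Sifted s M N q1 (nc c) F).ncard : ℝ) - V F * ((N - M) / q1)| ≤ min (ε / 4) (1 / 2) * (V F * (N / q1)) ∧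
        |((Sifted s 0 N q1 (nc c) F).ncard : ℝ) - V F * (N / q1)| ≤ min (ε / 4) (1 / 2) * (V F * (N / q1)) ∧
        0 < V F * ((N : ℝ) / q1) := fun c => by
      obtain ⟨-, h2, h3, h4⟩ := H2 S hS φ hφ N (by omega) M hMN q1 hq0 hq1 hDl F hFprop (nc c)
      exact ⟨h2, h3, h4⟩
    obtain ⟨E, hE⟩ : ∃ E : ℝ, E = V F * ((N : ℝ) / q1) := ⟨_, rfl⟩
    obtain ⟨G, hG⟩ : ∃ G : ℝ, G = V F * (((N : ℝ) - M) / q1) := ⟨_, rfl⟩
    rw [← hE, ← hG] at hest
    have hE0 : 0 < E := (hest 0).2.2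
    have m1 : min (ε / 4) (1 / 2) * E ≤ ε / 4 * E := mul_le_mul_of_nonneg_right (min_le_left _ _) hE0.le
    have m2 : min (ε / 4) (1 / 2) * E ≤ 1 / 2 * E := mul_le_mul_of_nonneg_right (min_le_right _ _) hE0.le
    -- lower bound for the whole set
    have t0 : D * E ≤ 2 * ((Sifted s 0 N q a P).ncard : ℝ) := by
      rw [ncard_cls hs 0 N q a P hD1, mul_sum]
      have : (D : ℝ) * E = ∑ _c ∈ range D, E := by rw [sum_const, card_range, nsmul_eq_mul]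
      rw [this]
      apply sum_le_sum
      intro c _
      rw [hnc]
      have := (abs_le.1 (hest c).2.1).1
      linarith
    have t1 : |∑ c ∈ range D, φ (c : ℤ) * (({n | n ∈ Sifted s M N q a P ∧ n ≡ (c : ℤ) [ZMOD D]} : Set ℤ).ncard : ℝ) -
        δ * (Sifted s M N q a P).ncard| ≤ ε / 4 * (D * E) := by
      rw [ncard_cls hs M N q a P hD1, mul_sum, ← sum_sub_distrib]
      have e1 : ∑ c ∈ range D, (φ (c : ℤ) * (({n | n ∈ Sifted s M N q a P ∧ n ≡ (c : ℤ) [ZMOD D]} : Set ℤ).ncard : ℝ) -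
          δ * (({n | n ∈ Sifted s M N q a P ∧ n ≡ (c : ℤ) [ZMOD D]} : Set ℤ).ncard : ℝ)) =
          ∑ c ∈ range D, (φ (c : ℤ) - δ) * ((({n | n ∈ Sifted s M N q a P ∧ n ≡ (c : ℤ) [ZMOD D]} : Set ℤ).ncard : ℝ) - G) := by
        have : ∑ c ∈ range D, (φ (c : ℤ) - δ) * G = 0 := by
          rw [← sum_mul, sum_sub_distrib, hsum, sum_const, card_range, nsmul_eq_mul]; ring
        rw [← sub_zero (∑ c ∈ range D, (φ (c : ℤ) * _ - _)), ← this, ← sum_sub_distrib]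
        apply sum_congr rfl
        intro c _
        ring
      rw [e1]
      refine (abs_sum_le_sum_abs _ _).trans ?_
      have : ε / 4 * (D * E) = ∑ _c ∈ range D, ε / 4 * E := by rw [sum_const, card_range, nsmul_eq_mul]; ring
      rw [this]
      apply sum_le_sum
      intro c _
      rw [hnc, abs_mul]
      obtain ⟨p0, p1⟩ := hφ.1 (c : ℤ)
      have hδ0 : 0 ≤ δ := by
        have h1 : 0 ≤ δ * D := by rw [← hsum]; exact sum_nonneg fun c _ => (hφ.1 _).1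
        by_contra hneg
        push Not at hneg
        nlinarith
      have hδ1 : δ ≤ 1 := by
        have h1 : δ * D ≤ D := by
          rw [← hsum]
          calc _ ≤ ∑ _c ∈ range D, (1 : ℝ) := sum_le_sum fun c _ => (hφ.1 _).2
            _ = D := by simp
        by_contra hneg
        push Not at hneg
        nlinarith
      have h1 : |φ (c : ℤ) - δ| ≤ 1 := by rw [abs_le]; constructor <;> linarith
      have h2 := ((hest c).1).trans m1
      calc _ ≤ 1 * (ε / 4 * E) := mul_le_mul h1 h2 (abs_nonneg _) zero_le_one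
        _ = _ := one_mul _
    have t2 := abs_sub_le ((S ∩ Sifted s M N q a P).ncard : ℝ)
      (∑ c ∈ range D, φ (c : ℤ) * (({n | n ∈ Sifted s M N q a P ∧ n ≡ (c : ℤ) [ZMOD D]} : Set ℤ).ncard : ℝ))
      (δ * (Sifted s M N q a P).ncard)
    have t3 : ε / 4 * (D * E) ≤ ε / 4 * (2 * ((Sifted s 0 N q a P).ncard : ℝ)) :=
      mul_le_mul_of_nonneg_left t0 (by positivity)
    linarith

end Pool.Agent.Helper82K9.GK
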